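import Mathlib

/-! Algebraic identities in characteristic two. -/

namespace Pool.Agent.K3h39.KR.Alg

variable {F : Type*} [Field F] [CharP F 2]

theorem a1 (u v a b : F) (ha : a ≠ 0) (hb : b ≠ 0) (hC : u + v + 1 ≠ 0) :
    (u + (a + b) * ((u ^ 2 + u) / (u + v + 1)) / a) +
      (v + (a + b) * ((v ^ 2 + v) / (u + v + 1)) / b) + 1 =
      (a * v + b * u + a) * (a * v + b * u + b) / (a * b * (u + v + 1)) := by
  field_simp
  grind

theorem a2 (u v a b : F) (ha : a ≠ 0) (hb : b ≠ 0) (hC : u + v + 1 ≠ 0)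
    (hC' : (u + (a + b) * ((u ^ 2 + u) / (u + v + 1)) / a) +
      (v + (a + b) * ((v ^ 2 + v) / (u + v + 1)) / b) + 1 ≠ 0) :
    ((u + (a + b) * ((u ^ 2 + u) / (u + v + 1)) / a) ^ 2 +
      (u + (a + b) * ((u ^ 2 + u) / (u + v + 1)) / a)) /
      ((u + (a + b) * ((u ^ 2 + u) / (u + v + 1)) / a) +
      (v + (a + b) * ((v ^ 2 + v) / (u + v + 1)) / b) + 1) =
      (u ^ 2 + u) / (u + v + 1) * b / a := by
  rw [div_eq_iff hC']
  field_simp
  grind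

theorem a3 (u v a b : F) (ha : a ≠ 0) (hb : b ≠ 0) (hC : u + v + 1 ≠ 0)
    (hC' : (u + (a + b) * ((u ^ 2 + u) / (u + v + 1)) / a) +
      (v + (a + b) * ((v ^ 2 + v) / (u + v + 1)) / b) + 1 ≠ 0) :
    ((v + (a + b) * ((v ^ 2 + v) / (u + v + 1)) / b) ^ 2 +
      (v + (a + b) * ((v ^ 2 + v) / (u + v + 1)) / b)) /
      ((u + (a + b) * ((u ^ 2 + u) / (u + v + 1)) / a) +
      (v + (a + b) * ((v ^ 2 + v) / (u + v + 1)) / b) + 1) =
      (v ^ 2 + v) / (u + v + 1) * a / b := by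
  rw [div_eq_iff hC']
  field_simp
  grind

/-- the exponent is preserved. -/
theorem a4 (u v X Y Z W : F) (ha : 1 + W ≠ 0) (hb : 1 + Z ≠ 0) (hC : u + v + 1 ≠ 0) :
    X + u * (1 + X + Z) + v * (1 + Y + W) + X * Z * ((u ^ 2 + u) / (u + v + 1)) +
      Y * W * ((v ^ 2 + v) / (u + v + 1)) =
    X + (u + ((1 + W) + (1 + Z)) * ((u ^ 2 + u) / (u + v + 1)) / (1 + W)) * (1 + X + W) +
      (v + ((1 + W) + (1 + Z)) * ((v ^ 2 + v) / (u + v + 1)) / (1 + Z)) * (1 + Y + Z) +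
      X * W * ((u ^ 2 + u) / (u + v + 1) * (1 + Z) / (1 + W)) +
      Y * Z * ((v ^ 2 + v) / (u + v + 1) * (1 + W) / (1 + Z)) := by
  field_simp
  grind

end Pool.Agent.K3h39.KR.Alg
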