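import Mathlib

/-! Definitions for the sums of MP_2c585b_nt Q2: an abstract Bessel kernel on a finite field of
characteristic two, and statements of independent bricks. -/

namespace Pool.Agent.K3h39.KR

open Finset

variable {F : Type*} [Field F] [Fintype F] [DecidableEq F]

/-- the three identities of a Bessel kernel of a cuspidal representation of `GL₂(F)`. -/
structure Bes (e : AddChar F ℂ) (J : F → ℂ) : Prop where
  J0 : ∑ y : Fˣ, J y = -1
  J1 : ∀ a b : Fˣ, ∑ y : Fˣ, J (a * y) * J (b * y) = if a = b then 1 else 0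
  J2 : ∀ a b : Fˣ, ∑ y : Fˣ, e y * (J (a * y) * J (b * y)) = e (a + b) * J (a * b)
  real : ∀ x, (starRingEnd ℂ) (J x) = J x

/-- the kernel used: `J x = -(1/|F|) ∑_l e (x (l³ + l²))`. -/
noncomputable def JJ (e : AddChar F ℂ) (x : F) : ℂ :=
  -(1 / (Fintype.card F : ℂ)) * ∑ l : F, e (x * (l ^ 3 + l ^ 2))

/-- `ρ x = - ∑_t e(t) J(t x)`. -/
noncomputable def rho (e : AddChar F ℂ) (J : F → ℂ) (x : F) : ℂ :=
  - ∑ t : Fˣ, e t * J (t * x)

/-- brick G. -/
def StmG : Prop :=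
  ∀ (F : Type) [Field F] [Fintype F] [DecidableEq F] [CharP F 2] (e : AddChar F ℂ),
    e 1 = -1 → (∀ x, e (x ^ 2) = e x) → (Function.Injective fun x : F => x ^ 3) →
    Bes e (JJ e)

/-- brick D. -/
def StmD : Prop :=
  ∀ (F : Type) [Field F] [Fintype F] [DecidableEq F] [CharP F 2] (e : AddChar F ℂ) (J : F → ℂ),
    e 1 = -1 → Bes e J → ∀ (φ : F ≃+* F), (∀ x, e (φ x) = e x) → (∀ x, J (φ x) = J x) →
    (∀ x, φ x = x → x = 0 ∨ x = 1) → (∀ x, φ (φ x) = x → x = 0 ∨ x = 1) →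
    (Function.Injective fun x : Fˣ => (x : F) * φ x) →
    1 + ∑ v : F, (if v = 0 ∨ v = 1 then 0 else
      e (φ v * (φ v + 1) / ((v + φ v) * (φ v + φ (φ v))))) =
      ∑ x : Fˣ, e x * rho e J (x * φ x)

end Pool.Agent.K3h39.KR
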