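import Mathlib
import Pool.Agent.K3h39.KR.Stm

/-! Basic consequences of the Bessel kernel identities. -/

namespace Pool.Agent.K3h39.KR

open Finset

variable {F : Type*} [Field F] [Fintype F] [DecidableEq F]

omit [Fintype F] [DecidableEq F] in
theorem e_self [CharP F 2] (e : AddChar F ℂ) (x : F) : e x * e x = 1 := by
  rw [← AddChar.map_add_eq_mul, CharTwo.add_self_eq_zero, AddChar.map_zero_eq_one]

omit [Fintype F] [DecidableEq F] in
theorem e_pm [CharP F 2] (e : AddChar F ℂ) (x : F) : e x = 1 ∨ e x = -1 := by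
  have := e_self e x
  have h2 : (e x - 1) * (e x + 1) = 0 := by linear_combination this
  rcases mul_eq_zero.1 h2 with h | h
  · left; linear_combination h
  · right; linear_combination h

omit [Fintype F] [DecidableEq F] in
theorem e_conj [CharP F 2] (e : AddChar F ℂ) (x : F) : (starRingEnd ℂ) (e x) = e x := by
  rcases e_pm e x with h | h <;> simp [h]

omit [Fintype F] [DecidableEq F] in
theorem e_ne (e : AddChar F ℂ) (h1 : e 1 = -1) : e ≠ 1 := by
  rintro rfl
  rw [AddChar.one_apply] at h1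
  norm_num at h1

theorem sum_units (f : F → ℂ) :
    ∑ y : Fˣ, f y = ∑ y : F, if y = 0 then 0 else f y := by
  have h : ∑ y : F, (if y = 0 then 0 else f y) = ∑ y ∈ univ.filter (fun y : F => ¬ y = 0), f y := by
    rw [Finset.sum_filter]
    refine Finset.sum_congr rfl fun y _ => ?_
    by_cases hy : y = 0 <;> simp [hy]
  rw [h]
  symm
  refine Finset.sum_bij' (fun y hy => Units.mk0 y (by simpa using hy)) (fun y _ => (y : F))
    ?_ ?_ ?_ ?_ ?_
  · intro y hy; simp
  · intro y _; simp
  · intro y hy; simp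
  · intro y _; ext; simp
  · intro y hy; simp

theorem sum_e (e : AddChar F ℂ) (hne : e ≠ 1) (a : F) :
    ∑ x : F, e (a * x) = if a = 0 then (Fintype.card F : ℂ) else 0 := by
  have := AddChar.sum_mulShift (ψ := e) a (AddChar.IsPrimitive.of_ne_one hne)
  simp_rw [mul_comm a]
  rw [this]
  split_ifs <;> simp

theorem sum_units_e (e : AddChar F ℂ) (hne : e ≠ 1) (a : F) :
    ∑ x : Fˣ, e (a * x) = (if a = 0 then (Fintype.card F : ℂ) else 0) - 1 := by
  have h := sum_units (fun y : F => e (a * y))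
  rw [h, ← sum_e e hne a, eq_sub_iff_add_eq]
  have h1 : (1 : ℂ) = ∑ y : F, if y = 0 then 1 else 0 := by simp
  rw [h1, ← Finset.sum_add_distrib]
  refine Finset.sum_congr rfl fun y _ => ?_
  split_ifs with hy
  · simp [hy]
  · simp

/-- the set `F \ {0, 1}`. -/
def S01 (F : Type*) [Field F] [Fintype F] [DecidableEq F] : Finset F :=
  univ.filter fun u => u ≠ 0 ∧ u ≠ 1

theorem mem_S01 (u : F) : u ∈ S01 F ↔ u ≠ 0 ∧ u ≠ 1 := by simp [S01]

theorem sum_S01_e (e : AddChar F ℂ) (hne : e ≠ 1) (a : F) :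
    ∑ u ∈ S01 F, e (a * u) = (if a = 0 then (Fintype.card F : ℂ) else 0) - 1 - e a := by
  have h := sum_e e hne a
  rw [← h]
  have h2 : (univ : Finset F) = insert 0 (insert 1 (S01 F)) := by
    ext x
    simp only [mem_univ, mem_insert, mem_S01, true_iff]
    tauto
  rw [h2, Finset.sum_insert, Finset.sum_insert]
  · simp
  · simp [mem_S01]
  · simp [mem_S01]

section B
variable {e : AddChar F ℂ} {J : F → ℂ}

/-- reindexing of sums over units. -/
theorem sum_scale (f : F → ℂ) (c : F) (hc : c ≠ 0) :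
    ∑ y : Fˣ, f (c * y) = ∑ y : Fˣ, f y := by
  refine Fintype.sum_equiv (Equiv.mulLeft (Units.mk0 c hc)) _ _ fun y => ?_
  simp

theorem J0s (h : Bes e J) (a : F) (ha : a ≠ 0) : ∑ y : Fˣ, J (a * y) = -1 := by
  rw [sum_scale J a ha, h.J0]

theorem J1s (h : Bes e J) (a b : F) (ha : a ≠ 0) (hb : b ≠ 0) :
    ∑ y : Fˣ, J (a * y) * J (b * y) = if a = b then 1 else 0 := by
  have := h.J1 (Units.mk0 a ha) (Units.mk0 b hb)
  simp only [Units.val_mk0] at this
  rw [this]
  simp [Units.ext_iff]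

theorem J2s (h : Bes e J) (a b c : F) (ha : a ≠ 0) (hb : b ≠ 0) (hc : c ≠ 0) :
    ∑ y : Fˣ, e (c * y) * (J (a * y) * J (b * y)) = e ((a + b) / c) * J (a * b / c ^ 2) := by
  have h1 := h.J2 (Units.mk0 (a / c) (div_ne_zero ha hc)) (Units.mk0 (b / c) (div_ne_zero hb hc))
  simp only [Units.val_mk0] at h1
  have h2 : a / c + b / c = (a + b) / c := by ring
  have h3 : a / c * (b / c) = a * b / c ^ 2 := by ring
  rw [← h2, ← h3, ← h1, ← sum_scale (fun y => e y * (J (a / c * y) * J (b / c * y))) c hc]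
  refine Finset.sum_congr rfl fun y _ => ?_
  congr 2
  · congr 1; field_simp
  · congr 1; field_simp

theorem rho_scale (b x : F) (hb : b ≠ 0) :
    ∑ t : Fˣ, e (b * t) * J (x * t) = - rho e J (x / b) := by
  rw [rho, neg_neg, ← sum_scale (fun t => e t * J (t * (x / b))) b hb]
  refine Finset.sum_congr rfl fun y _ => ?_
  congr 2
  field_simp

theorem e_rho [CharP F 2] (h : Bes e J) (x : F) (hx : x ≠ 0) :
    e x * rho e J x = - rho e J x := by
  have h2 : ∑ z : Fˣ, ∑ y : Fˣ, e y * (J (x * y) * J (z * y)) =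
      ∑ z : Fˣ, e (x + z) * J (x * z) := by
    refine Finset.sum_congr rfl fun z _ => ?_
    have := h.J2 (Units.mk0 x hx) z
    simpa using this
  rw [Finset.sum_comm] at h2
  have h3 : ∀ y : Fˣ, ∑ z : Fˣ, e y * (J (x * y) * J (z * y)) = -(e y * J (y * x)) := by
    intro y
    rw [← Finset.mul_sum, ← Finset.mul_sum]
    have := J0s h (y : F) y.ne_zero
    simp_rw [mul_comm _ (y : F)] at *
    rw [this]; ring
  rw [Finset.sum_congr rfl fun y _ => h3 y, Finset.sum_neg_distrib] at h2
  have h4 : ∑ z : Fˣ, e (x + z) * J (x * z) = - (e x * rho e J x) := by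
    rw [rho, mul_neg, neg_neg, Finset.mul_sum]
    refine Finset.sum_congr rfl fun z _ => ?_
    rw [AddChar.map_add_eq_mul, mul_comm x]; ring
  rw [h4] at h2
  have h5 : rho e J x = - ∑ y : Fˣ, e y * J (y * x) := rfl
  rw [← h5] at h2
  linear_combination h2

theorem sum_rho [CharP F 2] (h : Bes e J) (hne : e ≠ 1) (a : F) (ha : a ≠ 0) :
    ∑ y : Fˣ, rho e J (a * y) = -1 := by
  simp only [rho]
  rw [Finset.sum_neg_distrib, Finset.sum_comm]
  have h1 : ∀ t : Fˣ, ∑ y : Fˣ, e t * J (t * (a * y)) = - e t := by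
    intro t
    rw [← Finset.mul_sum]
    have := J0s h ((t : F) * a) (mul_ne_zero t.ne_zero ha)
    simp_rw [← mul_assoc]
    rw [this]; ring
  rw [Finset.sum_congr rfl fun t _ => h1 t, Finset.sum_neg_distrib, neg_neg]
  have := sum_units_e e hne 1
  simp only [one_mul, one_ne_zero, if_false] at this
  rw [this]; ring

theorem rho_mul_rho (h : Bes e J) (hne : e ≠ 1) (a b : F) (ha : a ≠ 0) (hb : b ≠ 0) [CharP F 2] :
    ∑ w : Fˣ, rho e J (a * w) * rho e J (b * w) =
      (if a = b then (Fintype.card F : ℂ) else 0) - 1 := by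
  have h1 : ∀ w : Fˣ, rho e J (a * w) * rho e J (b * w) =
      ∑ t : Fˣ, ∑ t' : Fˣ, e (t + t') * (J (t * a * w) * J (t' * b * w)) := by
    intro w
    simp only [rho]
    rw [neg_mul_neg, Finset.sum_mul_sum]
    refine Finset.sum_congr rfl fun t _ => Finset.sum_congr rfl fun t' _ => ?_
    have e1 : (t : F) * a * w = t * (a * w) := by ring
    have e2 : (t' : F) * b * w = t' * (b * w) := by ring
    rw [AddChar.map_add_eq_mul, e1, e2]; ring
  rw [Finset.sum_congr rfl fun w _ => h1 w, Finset.sum_comm]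
  have h2 : ∀ t : Fˣ, ∑ w : Fˣ, ∑ t' : Fˣ, e (t + t') * (J (t * a * w) * J (t' * b * w)) =
      e ((1 + a / b) * t) := by
    intro t
    rw [Finset.sum_comm]
    have h3 : ∀ t' : Fˣ, ∑ w : Fˣ, e (t + t') * (J (t * a * w) * J (t' * b * w)) =
        if t' = t * Units.mk0 a ha * (Units.mk0 b hb)⁻¹ then e ((1 + a / b) * t) else 0 := by
      intro t'
      rw [← Finset.mul_sum, J1s h _ _ (mul_ne_zero t.ne_zero ha) (mul_ne_zero t'.ne_zero hb)]
      have h4 : ((t : F) * a = t' * b) ↔ t' = t * Units.mk0 a ha * (Units.mk0 b hb)⁻¹ := by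
        rw [Units.ext_iff, Units.val_mul, Units.val_mul, Units.val_inv_eq_inv_val, Units.val_mk0,
          Units.val_mk0, eq_mul_inv_iff_mul_eq₀ hb]
        exact eq_comm
      simp only [h4]
      split_ifs with h5
      · rw [h5, Units.val_mul, Units.val_mul, Units.val_inv_eq_inv_val, Units.val_mk0,
          Units.val_mk0, mul_one]
        congr 1; field_simp
      · ring
    rw [Finset.sum_congr rfl fun t' _ => h3 t']
    simp
  rw [Finset.sum_congr rfl fun t _ => h2 t, sum_units_e e hne]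
  have h5 : (1 + a / b = 0) ↔ a = b := by
    rw [CharTwo.add_eq_zero, eq_comm, div_eq_one_iff_eq hb]
  simp only [h5]

end B

end Pool.Agent.K3h39.KR
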