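import Mathlib
import Pool.Agent.K3h39.KR.Basic

/-! The symmetric kernel `c0` and its convolutions with `rho`. -/

namespace Pool.Agent.K3h39.KR

open Finset

variable {F : Type*} [Field F] [Fintype F] [DecidableEq F] {e : AddChar F ℂ} {J : F → ℂ}

/-- the symmetric kernel. -/
noncomputable def c0 (e : AddChar F ℂ) (J : F → ℂ) (x y z : F) : ℂ :=
  ∑ u ∈ S01 F, e (u * (1 + x + y + z)) * J (x * y * z * (u ^ 2 + u))

/-- the auxiliary double sum. -/
noncomputable def SS (e : AddChar F ℂ) (J : F → ℂ) (a b c : F) : ℂ :=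
  ∑ s : Fˣ, ∑ t : Fˣ, e (a * s + b * t + s * t) * J (c * s * t)

theorem c0_swap12 (x y z : F) : c0 e J x y z = c0 e J y x z := by
  unfold c0
  refine Finset.sum_congr rfl fun u _ => ?_
  congr 2 <;> ring

theorem c0_swap23 (x y z : F) : c0 e J x y z = c0 e J x z y := by
  unfold c0
  refine Finset.sum_congr rfl fun u _ => ?_
  congr 2 <;> ring

theorem sum_S01_shift [CharP F 2] (f : F → ℂ) : ∑ u ∈ S01 F, f (u + 1) = ∑ u ∈ S01 F, f u := by
  have key : ∀ a ∈ S01 F, a + 1 ∈ S01 F := by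
    intro a ha
    rw [mem_S01] at ha ⊢
    constructor
    · intro h; exact ha.2 (CharTwo.add_eq_zero.1 h)
    · intro h; exact ha.1 (by simpa using h)
  refine Finset.sum_nbij' (fun u => u + 1) (fun u => u + 1) key key ?_ ?_ ?_
  · intro a _; show a + 1 + 1 = a; rw [add_assoc, CharTwo.add_self_eq_zero, add_zero]
  · intro a _; show a + 1 + 1 = a; rw [add_assoc, CharTwo.add_self_eq_zero, add_zero]
  · intro a _; rfl

theorem c0_supp [CharP F 2] (x y z : F) : e (1 + x + y + z) * c0 e J x y z = c0 e J x y z := by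
  unfold c0
  rw [Finset.mul_sum, ← sum_S01_shift (fun u => e (u * (1 + x + y + z)) * J (x * y * z * (u ^ 2 + u)))]
  refine Finset.sum_congr rfl fun u _ => ?_
  have h2 : (u + 1) ^ 2 + (u + 1) = u ^ 2 + u := by grind
  rw [h2, ← mul_assoc, ← AddChar.map_add_eq_mul]
  congr 2; ring

theorem sum_units_S01 (f : F → ℂ) : ∑ y : Fˣ, f y = f 1 + ∑ y ∈ S01 F, f y := by
  rw [sum_units]
  have h2 : (univ : Finset F) = insert 0 (insert 1 (S01 F)) := by
    ext x
    simp only [mem_univ, mem_insert, mem_S01, true_iff]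
    tauto
  rw [h2, Finset.sum_insert, Finset.sum_insert]
  · rw [if_pos rfl, if_neg one_ne_zero, zero_add]
    congr 1
    refine Finset.sum_congr rfl fun y hy => ?_
    rw [mem_S01] at hy
    rw [if_neg hy.1]
  · simp [mem_S01]
  · simp [mem_S01]

theorem SS_symm (a b c : F) : SS e J a b c = SS e J b a c := by
  unfold SS
  rw [Finset.sum_comm]
  refine Finset.sum_congr rfl fun s _ => Finset.sum_congr rfl fun t _ => ?_
  congr 2 <;> ring

theorem SS_scale (a b c l : F) (hl : l ≠ 0) : SS e J a b c = SS e J (l * a) (b / l) c := by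
  unfold SS
  have h1 := sum_scale (fun s : F => ∑ t : Fˣ, e (a * s + b * t + s * t) * J (c * s * t)) l hl
  rw [← h1]
  refine Finset.sum_congr rfl fun s _ => ?_
  have h2 := sum_scale (fun t : F => e (a * (l * s) + b * t + l * s * t) * J (c * (l * s) * t)) l⁻¹
    (inv_ne_zero hl)
  rw [← h2]
  refine Finset.sum_congr rfl fun t _ => ?_
  congr 2 <;> field_simp

theorem A_eq [CharP F 2] (h : Bes e J) (X Y Z : Fˣ) :
    ∑ w : Fˣ, c0 e J X w Z * rho e J (w * Y) =
      rho e J (X * Z) - e (1 + X + Z) * SS e J ((1 + Z) * (1 + X)) (1 + Y) (X * Y * Z) := by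
  obtain ⟨G, hG⟩ : ∃ G : F → ℂ, G = fun ε => ∑ t : Fˣ,
      e ((ε + 1) * (1 + X + Z) + (ε + 1) * t + X * Z * ε + t * Y) * J (X * Y * Z * ε * t) := ⟨_, rfl⟩
  have h1 : ∀ w : Fˣ, c0 e J X w Z * rho e J (w * Y) = ∑ u ∈ S01 F, ∑ t : Fˣ,
      -(e (u * (1 + X + Z) + t) * (e (u * w) * (J (X * Z * (u ^ 2 + u) * w) * J (t * Y * w)))) := by
    intro w
    unfold c0 rho
    rw [mul_neg, Finset.sum_mul_sum, ← Finset.sum_neg_distrib]
    refine Finset.sum_congr rfl fun u _ => ?_
    rw [← Finset.sum_neg_distrib]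
    refine Finset.sum_congr rfl fun t _ => ?_
    have e1 : (X : F) * w * Z * (u ^ 2 + u) = X * Z * (u ^ 2 + u) * w := by ring
    have e2 : (t : F) * (w * Y) = t * Y * w := by ring
    have e3 : u * (1 + (X : F) + w + Z) = u * (1 + X + Z) + u * w := by ring
    rw [e1, e2, e3, AddChar.map_add_eq_mul e (u * (1 + X + Z)) t,
      AddChar.map_add_eq_mul e (u * (1 + X + Z)) (u * w)]
    ring
  have h2 : ∀ u ∈ S01 F, ∑ w : Fˣ, ∑ t : Fˣ,
      -(e (u * (1 + X + Z) + t) * (e (u * w) * (J (X * Z * (u ^ 2 + u) * w) * J (t * Y * w)))) =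
      -G (u + 1) := by
    intro u hu
    rw [mem_S01] at hu
    have hu2 : u ^ 2 + u ≠ 0 := by
      intro h0
      have : u * (u + 1) = 0 := by rw [← h0]; ring
      rcases mul_eq_zero.1 this with h | h
      · exact hu.1 h
      · exact hu.2 (CharTwo.add_eq_zero.1 h)
    rw [Finset.sum_comm, hG, ← Finset.sum_neg_distrib]
    have h3 := sum_scale (fun t : F => ∑ w : Fˣ,
      -(e (u * (1 + X + Z) + t) * (e (u * w) * (J (X * Z * (u ^ 2 + u) * w) * J (t * Y * w))))) u hu.1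
    rw [← h3]
    refine Finset.sum_congr rfl fun t _ => ?_
    rw [Finset.sum_neg_distrib, ← Finset.mul_sum, J2s h _ _ _
      (mul_ne_zero (mul_ne_zero X.ne_zero Z.ne_zero) hu2)
      (mul_ne_zero (mul_ne_zero hu.1 t.ne_zero) Y.ne_zero) hu.1, ← mul_assoc,
      ← AddChar.map_add_eq_mul]
    have hu0 := hu.1
    congr 3
    · field_simp
      grind
    · field_simp
  have h4 : G 1 = rho e J (X * Z) := by
    rw [hG]
    simp only [CharTwo.add_self_eq_zero, zero_mul, zero_add, mul_one]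
    have h5 : ∀ t : Fˣ, e ((X : F) * Z + t * Y) * J (X * Y * Z * t) =
        e (X * Z) * (e (Y * t) * J (X * Y * Z * t)) := by
      intro t
      rw [AddChar.map_add_eq_mul, mul_comm (t : F)]; ring
    rw [Finset.sum_congr rfl fun t _ => h5 t, ← Finset.mul_sum, rho_scale _ _ Y.ne_zero]
    have h6 : (X : F) * Y * Z / Y = X * Z := by
      have := Y.ne_zero
      field_simp
    rw [h6, mul_neg, e_rho h _ (mul_ne_zero X.ne_zero Z.ne_zero), neg_neg]
  rw [Finset.sum_congr rfl fun w _ => h1 w, Finset.sum_comm, Finset.sum_congr rfl h2,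
    sum_S01_shift (fun u => -G u), Finset.sum_neg_distrib]
  have h7 := sum_units_S01 G
  have h8 : ∑ s : Fˣ, G s = e (1 + X + Z) * SS e J ((1 + Z) * (1 + X)) (1 + Y) (X * Y * Z) := by
    unfold SS
    rw [Finset.mul_sum, hG]
    refine Finset.sum_congr rfl fun s _ => ?_
    rw [Finset.mul_sum]
    refine Finset.sum_congr rfl fun t _ => ?_
    rw [← mul_assoc, ← AddChar.map_add_eq_mul]
    congr 2; ring
  rw [← h8, h7, h4]
  ring

theorem rho_rho [CharP F 2] (h : Bes e J) (X Z : Fˣ) (hZ : (Z : F) ≠ 1) :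
    ∑ w : Fˣ, e w * (rho e J (X * w) * rho e J (Z * w)) =
      ∑ t : Fˣ, e (t * (1 + X + Z)) * rho e J (X * Z * t) := by
  have hZ1 : 1 + (Z : F) ≠ 0 := fun h0 => hZ (CharTwo.add_eq_zero.1 h0).symm
  have h1 : ∀ w : Fˣ, e w * (rho e J (X * w) * rho e J (Z * w)) = ∑ t : Fˣ, ∑ t' : Fˣ,
      e (t + t') * (e (1 * w) * (J (t * X * w) * J (t' * Z * w))) := by
    intro w
    unfold rho
    rw [neg_mul_neg, Finset.sum_mul_sum, Finset.mul_sum]
    refine Finset.sum_congr rfl fun t _ => ?_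
    rw [Finset.mul_sum]
    refine Finset.sum_congr rfl fun t' _ => ?_
    have e1 : (t : F) * (X * w) = t * X * w := by ring
    have e2 : (t' : F) * (Z * w) = t' * Z * w := by ring
    rw [e1, e2, AddChar.map_add_eq_mul, one_mul]; ring
  rw [Finset.sum_congr rfl fun w _ => h1 w, Finset.sum_comm]
  have h2 : ∀ t : Fˣ, ∑ w : Fˣ, ∑ t' : Fˣ,
      e (t + t') * (e (1 * w) * (J (t * X * w) * J (t' * Z * w))) =
      - (e ((1 + X) * t) * rho e J (X * Z * t / (1 + Z))) := by
    intro t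
    rw [Finset.sum_comm]
    have h3 : ∀ t' : Fˣ, ∑ w : Fˣ, e (t + t') * (e (1 * w) * (J (t * X * w) * J (t' * Z * w))) =
        e ((1 + X) * t) * (e ((1 + Z) * t') * J (X * Z * t * t')) := by
      intro t'
      rw [← Finset.mul_sum, J2s h _ _ _ (mul_ne_zero t.ne_zero X.ne_zero)
        (mul_ne_zero t'.ne_zero Z.ne_zero) one_ne_zero, ← mul_assoc (e _) (e _) (J _),
        ← mul_assoc (e _) (e _) (J _), ← AddChar.map_add_eq_mul, ← AddChar.map_add_eq_mul]
      congr 2
      · ring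
      · field_simp
    rw [Finset.sum_congr rfl fun t' _ => h3 t', ← Finset.mul_sum, rho_scale _ _ hZ1, mul_neg]
  rw [Finset.sum_congr rfl fun t _ => h2 t]
  have h4 := sum_scale (fun t : F => -(e ((1 + X) * t) * rho e J (X * Z * t / (1 + Z)))) (1 + Z) hZ1
  rw [← h4]
  refine Finset.sum_congr rfl fun t _ => ?_
  have e1 : (X : F) * Z * ((1 + Z) * t) / (1 + Z) = X * Z * t := by field_simp
  have e2 : (1 + (X : F)) * ((1 + Z) * t) = t * (1 + X + Z) + X * Z * t := by ring
  rw [e1, e2, AddChar.map_add_eq_mul, mul_assoc,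
    e_rho h _ (mul_ne_zero (mul_ne_zero X.ne_zero Z.ne_zero) t.ne_zero)]
  ring

theorem E2 [CharP F 2] (h : Bes e J) (h1 : e 1 = -1) (X Z : Fˣ) (hZ : (Z : F) ≠ 1) :
    e X * ∑ w : Fˣ, c0 e J X w Z - e X * rho e J (X * Z) =
      e Z * ∑ w : Fˣ, e w * (rho e J (X * w) * rho e J (Z * w)) := by
  rw [rho_rho h X Z hZ]
  have h2 : ∑ w : Fˣ, c0 e J X w Z =
      ∑ u ∈ S01 F, -(e ((u + 1 + 1) * (1 + X + Z)) * rho e J (X * Z * (u + 1))) := by
    unfold c0
    rw [Finset.sum_comm]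
    refine Finset.sum_congr rfl fun u hu => ?_
    rw [mem_S01] at hu
    have h3 : ∀ w : Fˣ, e (u * (1 + X + w + Z)) * J (X * w * Z * (u ^ 2 + u)) =
        e (u * (1 + X + Z)) * (e (u * w) * J (X * Z * (u ^ 2 + u) * w)) := by
      intro w
      rw [← mul_assoc, ← AddChar.map_add_eq_mul]
      congr 2 <;> ring
    rw [Finset.sum_congr rfl fun w _ => h3 w, ← Finset.mul_sum, rho_scale _ _ hu.1, mul_neg]
    have e1 : u + 1 + 1 = u := by grind
    have e2 : (X : F) * Z * (u ^ 2 + u) / u = X * Z * (u + 1) := by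
      have := hu.1
      field_simp
    rw [e1, e2]
  rw [h2, sum_S01_shift (fun u => -(e ((u + 1) * (1 + X + Z)) * rho e J (X * Z * u)))]
  have h4 := sum_units_S01 (fun t : F => e (t * (1 + X + Z)) * rho e J (X * Z * t))
  simp only [one_mul, mul_one] at h4
  rw [h4]
  have h5 : ∀ u : F, -(e ((u + 1) * (1 + X + Z)) * rho e J (X * Z * u)) =
      e (X + Z) * (e (u * (1 + X + Z)) * rho e J (X * Z * u)) := by
    intro u
    have e1 : (u + 1) * (1 + (X : F) + Z) = u * (1 + X + Z) + (X + Z) + 1 := by ring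
    rw [e1, AddChar.map_add_eq_mul, AddChar.map_add_eq_mul, h1]; ring
  rw [Finset.sum_congr rfl fun u _ => h5 u, ← Finset.mul_sum]
  have e2 : e (1 + (X : F) + Z) = -(e X * e Z) := by
    rw [AddChar.map_add_eq_mul, AddChar.map_add_eq_mul, h1]; ring
  have e3 : e ((X : F) + Z) = e X * e Z := AddChar.map_add_eq_mul _ _ _
  rw [e2, e3]
  have e4 := e_self e (X : F)
  have e5 := e_self e (Z : F)
  linear_combination (e (Z : F) * ∑ u ∈ S01 F, e (u * (1 + X + Z)) * rho e J (X * Z * u)) * e4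
    + (e (X : F) * rho e J (X * Z)) * e5

end Pool.Agent.K3h39.KR
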