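import Mathlib
import Pool.Agent.K3h39.KR.C0
import Pool.Agent.K3h39.KR.Alg

/-! The main entry of the commutation relation. -/

namespace Pool.Agent.K3h39.KR

open Finset

variable {F : Type*} [Field F] [Fintype F] [DecidableEq F] {e : AddChar F ℂ} {J : F → ℂ}

/-- the summand. -/
noncomputable def gg (e : AddChar F ℂ) (J : F → ℂ) (X Y Z W : F) (w : F × F) : ℂ :=
  e (X + w.1 * (1 + X + Z) + w.2 * (1 + Y + W) +
      X * Z * ((w.1 ^ 2 + w.1) / (w.1 + w.2 + 1)) +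
      Y * W * ((w.2 ^ 2 + w.2) / (w.1 + w.2 + 1))) *
    J (X * Y * Z * W * (((w.1 ^ 2 + w.1) / (w.1 + w.2 + 1)) *
      ((w.2 ^ 2 + w.2) / (w.1 + w.2 + 1))))

/-- the domain. -/
def dom (F : Type*) [Field F] [Fintype F] [DecidableEq F] : Finset (F × F) :=
  univ.filter fun w => (w.1 ≠ 0 ∧ w.1 ≠ 1) ∧ (w.2 ≠ 0 ∧ w.2 ≠ 1) ∧ w.1 + w.2 + 1 ≠ 0

theorem mem_dom (w : F × F) : w ∈ dom F ↔
    (w.1 ≠ 0 ∧ w.1 ≠ 1) ∧ (w.2 ≠ 0 ∧ w.2 ≠ 1) ∧ w.1 + w.2 + 1 ≠ 0 := by simp [dom]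

/-- the main entry of the product. -/
noncomputable def PP (e : AddChar F ℂ) (J : F → ℂ) (X Y Z W : F) : ℂ :=
  ∑ w : Fˣ, e X * c0 e J X w Z * (e w * c0 e J w Y W)

omit [Fintype F] [DecidableEq F] in
theorem sq_add_ne [CharP F 2] {u : F} (h : u ≠ 0 ∧ u ≠ 1) : u ^ 2 + u ≠ 0 := by
  intro h0
  have : u * (u + 1) = 0 := by rw [← h0]; ring
  rcases mul_eq_zero.1 this with h' | h'
  · exact h.1 h'
  · exact h.2 (CharTwo.add_eq_zero.1 h')

omit [Fintype F] [DecidableEq F] in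
theorem ne_of_sq_add [CharP F 2] {u : F} (h : u ^ 2 + u ≠ 0) : u ≠ 0 ∧ u ≠ 1 := by
  constructor
  · rintro rfl; apply h; ring
  · rintro rfl; apply h; rw [one_pow, CharTwo.add_self_eq_zero]

theorem PP_split [CharP F 2] (h : Bes e J) (h1 : e 1 = -1) (X Y Z W : Fˣ) :
    PP e J X Y Z W = ∑ w ∈ dom F, gg e J X Y Z W w +
      if (X : F) * Z = Y * W then -(e (X + Y + W)) *
        ((if (X : F) + Y + Z + W = 0 then (Fintype.card F : ℂ) else 0) - 1 - e (X + Y + Z + W))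
      else 0 := by
  have hne := e_ne e h1
  obtain ⟨H, hH⟩ : ∃ H : F × F → ℂ, H = fun p => e (X + p.1 * (1 + X + Z) + p.2 * (1 + Y + W)) *
    ∑ w : Fˣ, e ((p.1 + p.2 + 1) * w) * (J (X * Z * (p.1 ^ 2 + p.1) * w) *
      J (Y * W * (p.2 ^ 2 + p.2) * w)) := ⟨_, rfl⟩
  have s1 : PP e J X Y Z W = ∑ p ∈ S01 F ×ˢ S01 F, H p := by
    unfold PP c0
    have e1 : ∀ w : Fˣ, (e X * ∑ u ∈ S01 F, e (u * (1 + X + w + Z)) * J (X * w * Z * (u ^ 2 + u))) *
        (e w * ∑ u ∈ S01 F, e (u * (1 + w + Y + W)) * J (w * Y * W * (u ^ 2 + u))) =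
        ∑ p ∈ S01 F ×ˢ S01 F, e (X + p.1 * (1 + X + Z) + p.2 * (1 + Y + W)) *
          (e ((p.1 + p.2 + 1) * w) * (J (X * Z * (p.1 ^ 2 + p.1) * w) *
      J (Y * W * (p.2 ^ 2 + p.2) * w))) := by
      intro w
      rw [Finset.sum_product, Finset.mul_sum, Finset.mul_sum, Finset.sum_mul_sum]
      refine Finset.sum_congr rfl fun u _ => Finset.sum_congr rfl fun v _ => ?_
      have e2 : (X : F) * w * Z * (u ^ 2 + u) = X * Z * (u ^ 2 + u) * w := by ring
      have e3 : (w : F) * Y * W * (v ^ 2 + v) = Y * W * (v ^ 2 + v) * w := by ring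
      have e4 : e (X : F) * (e (u * (1 + X + w + Z)) * (e (w : F) * e (v * (1 + w + Y + W)))) =
          e (X + u * (1 + X + Z) + v * (1 + Y + W)) * e ((u + v + 1) * w) := by
        rw [← AddChar.map_add_eq_mul, ← AddChar.map_add_eq_mul, ← AddChar.map_add_eq_mul,
          ← AddChar.map_add_eq_mul]
        congr 1; ring
      rw [e2, e3]
      linear_combination (J (X * Z * (u ^ 2 + u) * w) * J (Y * W * (v ^ 2 + v) * w)) * e4
    rw [Finset.sum_congr rfl fun w _ => e1 w, Finset.sum_comm, hH]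
    refine Finset.sum_congr rfl fun p _ => ?_
    exact (Finset.mul_sum _ _ _).symm
  rw [s1, ← Finset.sum_filter_add_sum_filter_not (S01 F ×ˢ S01 F) (fun p => p.1 + p.2 + 1 ≠ 0)]
  congr 1
  · have e1 : (S01 F ×ˢ S01 F).filter (fun p => p.1 + p.2 + 1 ≠ 0) = dom F := by
      ext p
      simp only [mem_filter, mem_product, mem_S01, mem_dom]
      tauto
    rw [e1]
    refine Finset.sum_congr rfl fun p hp => ?_
    rw [mem_dom] at hp
    obtain ⟨hu, hv, hC⟩ := hp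
    rw [hH]
    simp only []
    rw [J2s h _ _ _ (mul_ne_zero (mul_ne_zero X.ne_zero Z.ne_zero) (sq_add_ne hu))
      (mul_ne_zero (mul_ne_zero Y.ne_zero W.ne_zero) (sq_add_ne hv)) hC, ← mul_assoc,
      ← AddChar.map_add_eq_mul]
    unfold gg
    congr 2
    · field_simp
      ring
    · field_simp
  · have e1 : ∑ p ∈ (S01 F ×ˢ S01 F).filter (fun p => ¬ (p.1 + p.2 + 1 ≠ 0)), H p =
        ∑ u ∈ S01 F, H (u, u + 1) := by
      refine Finset.sum_nbij' (fun p => p.1) (fun u => (u, u + 1)) ?_ ?_ ?_ ?_ ?_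
      · intro p hp
        simp only [mem_filter, mem_product] at hp
        exact hp.1.1
      · intro u hu
        simp only [mem_filter, mem_product, mem_S01] at hu ⊢
        refine ⟨⟨hu, ?_, ?_⟩, ?_⟩
        · intro h0; exact hu.2 (CharTwo.add_eq_zero.1 h0)
        · intro h0; exact hu.1 (by simpa using h0)
        · rw [not_not]; grind
      · rintro ⟨u, v⟩ hp
        simp only [mem_filter, not_not] at hp
        ext
        · rfl
        · show u + 1 = v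
          have := hp.2
          grind
      · intro u _; rfl
      · rintro ⟨u, v⟩ hp
        simp only [mem_filter, not_not] at hp
        have h3 : v = u + 1 := by
          have := hp.2
          grind
        rw [h3]
    rw [e1]
    have e2 : ∀ u ∈ S01 F, H (u, u + 1) = if (X : F) * Z = Y * W then
        -(e (X + Y + W)) * e ((X + Y + Z + W) * u) else 0 := by
      intro u hu
      rw [mem_S01] at hu
      have hu2 := sq_add_ne hu
      rw [hH]
      simp only []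
      have e3 : u + (u + 1) + 1 = 0 := by grind
      have e4 : (u + 1) ^ 2 + (u + 1) = u ^ 2 + u := by grind
      rw [e3, e4]
      simp only [zero_mul, AddChar.map_zero_eq_one, one_mul]
      rw [J1s h _ _ (mul_ne_zero (mul_ne_zero X.ne_zero Z.ne_zero) hu2)
        (mul_ne_zero (mul_ne_zero Y.ne_zero W.ne_zero) hu2)]
      have e5 : ((X : F) * Z * (u ^ 2 + u) = Y * W * (u ^ 2 + u)) ↔ (X : F) * Z = Y * W :=
        mul_left_inj' hu2
      simp only [e5]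
      split_ifs
      · rw [mul_one, neg_mul, ← AddChar.map_add_eq_mul]
        have e6 : (X : F) + u * (1 + X + Z) + (u + 1) * (1 + Y + W) =
            (X + Y + W + (X + Y + Z + W) * u) + 1 := by grind
        rw [e6, AddChar.map_add_eq_mul, h1]; ring
      · ring
    rw [Finset.sum_congr rfl e2]
    split_ifs with hc
    · rw [← Finset.mul_sum, sum_S01_e e hne, if_pos ‹_›]
    · rw [← Finset.mul_sum, sum_S01_e e hne, if_neg ‹_›]
    · simp

/-- the good part of the domain. -/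
def domU (a b : F) : Finset (F × F) :=
  (dom F).filter fun w => a * w.2 + b * w.1 + a ≠ 0 ∧ a * w.2 + b * w.1 + b ≠ 0

/-- the bijection. -/
def ib (a b : F) (w : F × F) : F × F :=
  (w.1 + (a + b) * ((w.1 ^ 2 + w.1) / (w.1 + w.2 + 1)) / a,
   w.2 + (a + b) * ((w.2 ^ 2 + w.2) / (w.1 + w.2 + 1)) / b)

theorem ib_mem [CharP F 2] (a b : F) (ha : a ≠ 0) (hb : b ≠ 0) (w : F × F)
    (hw : w ∈ domU a b) : ib a b w ∈ domU b a ∧ ib b a (ib a b w) = w := by
  rw [domU, mem_filter, mem_dom] at hw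
  obtain ⟨⟨hu, hv, hC⟩, hL1, hL2⟩ := hw
  have c1 := Alg.a1 w.1 w.2 a b ha hb hC
  have hC' : (ib a b w).1 + (ib a b w).2 + 1 ≠ 0 := by
    show (w.1 + (a + b) * ((w.1 ^ 2 + w.1) / (w.1 + w.2 + 1)) / a) +
      (w.2 + (a + b) * ((w.2 ^ 2 + w.2) / (w.1 + w.2 + 1)) / b) + 1 ≠ 0
    rw [c1]
    exact div_ne_zero (mul_ne_zero hL1 hL2) (mul_ne_zero (mul_ne_zero ha hb) hC)
  have c2 : ((ib a b w).1 ^ 2 + (ib a b w).1) / ((ib a b w).1 + (ib a b w).2 + 1) =
      (w.1 ^ 2 + w.1) / (w.1 + w.2 + 1) * b / a := Alg.a2 w.1 w.2 a b ha hb hC hC'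
  have c3 : ((ib a b w).2 ^ 2 + (ib a b w).2) / ((ib a b w).1 + (ib a b w).2 + 1) =
      (w.2 ^ 2 + w.2) / (w.1 + w.2 + 1) * a / b := Alg.a3 w.1 w.2 a b ha hb hC hC'
  have hinv : ib b a (ib a b w) = w := by
    have d1 : ib b a (ib a b w) = ((ib a b w).1 + (b + a) *
        (((ib a b w).1 ^ 2 + (ib a b w).1) / ((ib a b w).1 + (ib a b w).2 + 1)) / b,
        (ib a b w).2 + (b + a) *
        (((ib a b w).2 ^ 2 + (ib a b w).2) / ((ib a b w).1 + (ib a b w).2 + 1)) / a) := rfl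
    rw [d1, c2, c3]
    ext
    · show (w.1 + (a + b) * ((w.1 ^ 2 + w.1) / (w.1 + w.2 + 1)) / a) +
        (b + a) * ((w.1 ^ 2 + w.1) / (w.1 + w.2 + 1) * b / a) / b = w.1
      field_simp
      grind
    · show (w.2 + (a + b) * ((w.2 ^ 2 + w.2) / (w.1 + w.2 + 1)) / b) +
        (b + a) * ((w.2 ^ 2 + w.2) / (w.1 + w.2 + 1) * a / b) / a = w.2
      field_simp
      grind
  refine ⟨?_, hinv⟩
  rw [domU, mem_filter, mem_dom]
  have u2 : (ib a b w).1 ^ 2 + (ib a b w).1 ≠ 0 := by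
    intro h0
    rw [h0, zero_div] at c2
    exact div_ne_zero (mul_ne_zero (div_ne_zero (sq_add_ne hu) hC) hb) ha c2.symm
  have v2 : (ib a b w).2 ^ 2 + (ib a b w).2 ≠ 0 := by
    intro h0
    rw [h0, zero_div] at c3
    exact div_ne_zero (mul_ne_zero (div_ne_zero (sq_add_ne hv) hC) ha) hb c3.symm
  refine ⟨⟨ne_of_sq_add u2, ne_of_sq_add v2, hC'⟩, ?_⟩
  have c4 := Alg.a1 (ib a b w).1 (ib a b w).2 b a hb ha hC'
  have c5 : (ib b a (ib a b w)).1 + (ib b a (ib a b w)).2 + 1 =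
    (b * (ib a b w).2 + a * (ib a b w).1 + b) * (b * (ib a b w).2 + a * (ib a b w).1 + a) /
      (b * a * ((ib a b w).1 + (ib a b w).2 + 1)) := c4
  rw [hinv] at c5
  constructor
  · intro h0
    rw [h0, zero_mul, zero_div] at c5
    exact hC c5
  · intro h0
    rw [h0, mul_zero, zero_div] at c5
    exact hC c5

theorem TU_symm [CharP F 2] (X Y Z W : F) (hZ : 1 + Z ≠ 0) (hW : 1 + W ≠ 0) :
    ∑ w ∈ domU (1 + W) (1 + Z), gg e J X Y Z W w =
      ∑ w ∈ domU (1 + Z) (1 + W), gg e J X Y W Z w := by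
  refine Finset.sum_nbij' (ib (1 + W) (1 + Z)) (ib (1 + Z) (1 + W)) ?_ ?_ ?_ ?_ ?_
  · intro w hw; exact (ib_mem _ _ hW hZ w hw).1
  · intro w hw; exact (ib_mem _ _ hZ hW w hw).1
  · intro w hw; exact (ib_mem _ _ hW hZ w hw).2
  · intro w hw; exact (ib_mem _ _ hZ hW w hw).2
  · intro w hw
    have hm := (ib_mem _ _ hW hZ w hw).1
    rw [domU, mem_filter, mem_dom] at hw hm
    obtain ⟨⟨hu, hv, hC⟩, hL1, hL2⟩ := hw
    obtain ⟨⟨_, _, hC'⟩, _⟩ := hm
    have c2 : ((ib (1 + W) (1 + Z) w).1 ^ 2 + (ib (1 + W) (1 + Z) w).1) /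
        ((ib (1 + W) (1 + Z) w).1 + (ib (1 + W) (1 + Z) w).2 + 1) =
      (w.1 ^ 2 + w.1) / (w.1 + w.2 + 1) * (1 + Z) / (1 + W) :=
      Alg.a2 w.1 w.2 (1 + W) (1 + Z) hW hZ hC hC'
    have c3 : ((ib (1 + W) (1 + Z) w).2 ^ 2 + (ib (1 + W) (1 + Z) w).2) /
        ((ib (1 + W) (1 + Z) w).1 + (ib (1 + W) (1 + Z) w).2 + 1) =
      (w.2 ^ 2 + w.2) / (w.1 + w.2 + 1) * (1 + W) / (1 + Z) :=
      Alg.a3 w.1 w.2 (1 + W) (1 + Z) hW hZ hC hC'
    unfold gg
    rw [c2, c3]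
    congr 2
    · exact Alg.a4 w.1 w.2 X Y Z W hW hZ hC
    · field_simp

end Pool.Agent.K3h39.KR
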