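import Mathlib
import Pool.Agent.K3h39.KR.Entry

/-! The exceptional lines and the symmetry of the main entry. -/

namespace Pool.Agent.K3h39.KR

open Finset

variable {F : Type*} [Field F] [Fintype F] [DecidableEq F] {e : AddChar F ℂ} {J : F → ℂ}

/-- the summand on the lines. -/
noncomputable def hh (e : AddChar F ℂ) (J : F → ℂ) (X Y Z W : F) (k : F) : ℂ :=
  e ((1 + k) * (W * X) + k * (Z * Y)) * J (X * Y * Z * W * (k * (1 + k)))

/-- parameters of the lines. -/
def S3 (a b : F) : Finset F := (S01 F).filter fun k => k ≠ a / (a + b)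

theorem mem_S3 (a b k : F) : k ∈ S3 a b ↔ (k ≠ 0 ∧ k ≠ 1) ∧ k ≠ a / (a + b) := by
  simp [S3, mem_S01]

theorem lineA [CharP F 2] (X Y Z W : F) (hZ : 1 + Z ≠ 0) (hW : 1 + W ≠ 0) (hZW : Z ≠ W) :
    ∑ w ∈ (dom F).filter (fun w => (1 + W) * w.2 + (1 + Z) * w.1 + (1 + Z) = 0),
      gg e J X Y Z W w = e (X + Y + (1 + Z)) * ∑ k ∈ S3 (1 + W) (1 + Z), hh e J X Y Z W k := by
  have hl : (1 + W) + (1 + Z) ≠ 0 := by
    intro h0; apply hZW; grind
  rw [Finset.mul_sum]
  symm
  refine Finset.sum_nbij' (fun k => (((1 + W) + (1 + Z)) * (1 + k) / (1 + Z),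
    1 + ((1 + W) + (1 + Z)) * k / (1 + W)))
    (fun w => (1 + W) * (1 + w.2) / ((1 + W) + (1 + Z))) ?_ ?_ ?_ ?_ ?_
  · intro k hk
    rw [mem_S3] at hk
    obtain ⟨⟨k0, k1⟩, k2⟩ := hk
    have k3 : (1 + W) + ((1 + W) + (1 + Z)) * k ≠ 0 := by
      intro h0; apply k2; rw [eq_div_iff hl]; grind
    have k1' : 1 + k ≠ 0 := fun h0 => k1 (CharTwo.add_eq_zero.1 h0).symm
    rw [mem_filter, mem_dom]
    refine ⟨⟨⟨?_, ?_⟩, ⟨?_, ?_⟩, ?_⟩, ?_⟩
    · exact div_ne_zero (mul_ne_zero hl k1') hZ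
    · show ((1 + W) + (1 + Z)) * (1 + k) / (1 + Z) ≠ 1
      intro h0
      rw [div_eq_one_iff_eq hZ] at h0
      apply k3; grind
    · show 1 + ((1 + W) + (1 + Z)) * k / (1 + W) ≠ 0
      intro h0
      have h2 : ((1 + W) + (1 + Z)) * k / (1 + W) = 1 := (CharTwo.add_eq_zero.1 h0).symm
      rw [div_eq_one_iff_eq hW] at h2
      apply k3; grind
    · show 1 + ((1 + W) + (1 + Z)) * k / (1 + W) ≠ 1
      intro h0
      have h2 : ((1 + W) + (1 + Z)) * k / (1 + W) = 0 := by grind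
      exact div_ne_zero (mul_ne_zero hl k0) hW h2
    · show ((1 + W) + (1 + Z)) * (1 + k) / (1 + Z) + (1 + ((1 + W) + (1 + Z)) * k / (1 + W)) + 1 ≠ 0
      have h2 : ((1 + W) + (1 + Z)) * (1 + k) / (1 + Z) + (1 + ((1 + W) + (1 + Z)) * k / (1 + W)) + 1 =
          ((1 + W) + (1 + Z)) * ((1 + W) + ((1 + W) + (1 + Z)) * k) / ((1 + W) * (1 + Z)) := by
        field_simp
        grind
      rw [h2]
      exact div_ne_zero (mul_ne_zero hl k3) (mul_ne_zero hW hZ)
    · show (1 + W) * (1 + ((1 + W) + (1 + Z)) * k / (1 + W)) +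
        (1 + Z) * (((1 + W) + (1 + Z)) * (1 + k) / (1 + Z)) + (1 + Z) = 0
      field_simp
      grind
  · rintro ⟨u, v⟩ hw
    rw [mem_filter, mem_dom] at hw
    obtain ⟨⟨⟨u0, u1⟩, ⟨v0, v1⟩, hC⟩, hL⟩ := hw
    simp only [] at u0 u1 v0 v1 hC hL
    have v1' : 1 + v ≠ 0 := fun h0 => v1 (CharTwo.add_eq_zero.1 h0).symm
    rw [mem_S3]
    refine ⟨⟨?_, ?_⟩, ?_⟩
    · exact div_ne_zero (mul_ne_zero hW v1') hl
    · show (1 + W) * (1 + v) / ((1 + W) + (1 + Z)) ≠ 1
      intro h0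
      rw [div_eq_one_iff_eq hl] at h0
      have h2 : (1 + Z) * u = 0 := by grind
      exact mul_ne_zero hZ u0 h2
    · show (1 + W) * (1 + v) / ((1 + W) + (1 + Z)) ≠ (1 + W) / ((1 + W) + (1 + Z))
      intro h0
      have h2 := (div_left_inj' hl).1 h0
      have h3 : (1 + W) * v = 0 := by grind
      exact mul_ne_zero hW v0 h3
  · intro k _
    show (1 + W) * (1 + (1 + ((1 + W) + (1 + Z)) * k / (1 + W))) / ((1 + W) + (1 + Z)) = k
    field_simp
    grind
  · rintro ⟨u, v⟩ hw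
    rw [mem_filter, mem_dom] at hw
    obtain ⟨_, hL⟩ := hw
    simp only [] at hL
    ext
    · show ((1 + W) + (1 + Z)) * (1 + (1 + W) * (1 + v) / ((1 + W) + (1 + Z))) / (1 + Z) = u
      rw [div_eq_iff hZ]
      field_simp
      grind
    · show 1 + ((1 + W) + (1 + Z)) * ((1 + W) * (1 + v) / ((1 + W) + (1 + Z))) / (1 + W) = v
      field_simp
      grind
  · intro k hk
    rw [mem_S3] at hk
    obtain ⟨⟨k0, k1⟩, k2⟩ := hk
    have k3 : (1 + W) + ((1 + W) + (1 + Z)) * k ≠ 0 := by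
      intro h0; apply k2; rw [eq_div_iff hl]; grind
    have hC : ((1 + W) + (1 + Z)) * (1 + k) / (1 + Z) + (1 + ((1 + W) + (1 + Z)) * k / (1 + W)) + 1 =
          ((1 + W) + (1 + Z)) * ((1 + W) + ((1 + W) + (1 + Z)) * k) / ((1 + W) * (1 + Z)) := by
      field_simp
      grind
    have hα : (((((1 + W) + (1 + Z)) * (1 + k) / (1 + Z)) ^ 2 +
        ((1 + W) + (1 + Z)) * (1 + k) / (1 + Z))) /
        (((1 + W) + (1 + Z)) * (1 + k) / (1 + Z) + (1 + ((1 + W) + (1 + Z)) * k / (1 + W)) + 1) =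
        (1 + k) * (1 + W) / (1 + Z) := by
      rw [hC]
      field_simp
      grind
    have hβ : (((1 + ((1 + W) + (1 + Z)) * k / (1 + W)) ^ 2 +
        (1 + ((1 + W) + (1 + Z)) * k / (1 + W)))) /
        (((1 + W) + (1 + Z)) * (1 + k) / (1 + Z) + (1 + ((1 + W) + (1 + Z)) * k / (1 + W)) + 1) =
        k * (1 + Z) / (1 + W) := by
      rw [hC]
      field_simp
      grind
    unfold gg hh
    simp only []
    rw [hα, hβ, ← mul_assoc, ← AddChar.map_add_eq_mul]
    congr 2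
    · field_simp
      grind
    · field_simp

theorem gg_shift [CharP F 2] (X Y Z W : F) (w : F × F) :
    gg e J X Y Z W (w.1 + 1, w.2 + 1) = e (X + Y + Z + W) * gg e J X Y Z W w := by
  unfold gg
  simp only []
  have h1 : w.1 + 1 + (w.2 + 1) + 1 = w.1 + w.2 + 1 := by grind
  have h2 : (w.1 + 1) ^ 2 + (w.1 + 1) = w.1 ^ 2 + w.1 := by grind
  have h3 : (w.2 + 1) ^ 2 + (w.2 + 1) = w.2 ^ 2 + w.2 := by grind
  rw [h1, h2, h3, ← mul_assoc (e _) (e _) (J _), ← AddChar.map_add_eq_mul]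
  congr 2
  grind

theorem lineB [CharP F 2] (X Y Z W : F) :
    ∑ w ∈ (dom F).filter (fun w => (1 + W) * w.2 + (1 + Z) * w.1 + (1 + W) = 0),
      gg e J X Y Z W w = e (X + Y + Z + W) *
      ∑ w ∈ (dom F).filter (fun w => (1 + W) * w.2 + (1 + Z) * w.1 + (1 + Z) = 0),
      gg e J X Y Z W w := by
  rw [Finset.mul_sum]
  have key : ∀ (w : F × F), w ∈ dom F → (w.1 + 1, w.2 + 1) ∈ dom F := by
    intro w hw
    rw [mem_dom] at hw ⊢
    obtain ⟨⟨u0, u1⟩, ⟨v0, v1⟩, hC⟩ := hw
    refine ⟨⟨?_, ?_⟩, ⟨?_, ?_⟩, ?_⟩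
    · intro h; exact u1 (CharTwo.add_eq_zero.1 h)
    · intro h; exact u0 (by simpa using h)
    · intro h; exact v1 (CharTwo.add_eq_zero.1 h)
    · intro h; exact v0 (by simpa using h)
    · show w.1 + 1 + (w.2 + 1) + 1 ≠ 0
      intro h; apply hC; grind
  have inv : ∀ (w : F × F), ((w.1 + 1) + 1, (w.2 + 1) + 1) = w := by
    intro w
    ext
    · show w.1 + 1 + 1 = w.1; grind
    · show w.2 + 1 + 1 = w.2; grind
  refine Finset.sum_nbij' (fun w => (w.1 + 1, w.2 + 1)) (fun w => (w.1 + 1, w.2 + 1)) ?_ ?_ ?_ ?_ ?_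
  · intro w hw
    rw [mem_filter] at hw ⊢
    refine ⟨key w hw.1, ?_⟩
    show (1 + W) * (w.2 + 1) + (1 + Z) * (w.1 + 1) + (1 + Z) = 0
    have := hw.2
    grind
  · intro w hw
    rw [mem_filter] at hw ⊢
    refine ⟨key w hw.1, ?_⟩
    show (1 + W) * (w.2 + 1) + (1 + Z) * (w.1 + 1) + (1 + W) = 0
    have := hw.2
    grind
  · intro w _; exact inv w
  · intro w _; exact inv w
  · intro w _
    have := gg_shift (e := e) (J := J) X Y Z W (w.1 + 1, w.2 + 1)
    simp only [] at this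
    rw [inv] at this
    exact this

/-- the sum of `hh` over all `k ≠ 0, 1`. -/
noncomputable def N2 (e : AddChar F ℂ) (J : F → ℂ) (X Y Z W : F) : ℂ :=
  ∑ k ∈ S01 F, hh e J X Y Z W k

theorem sum_S3 [CharP F 2] (X Y Z W : F) (hZ : 1 + Z ≠ 0) (hW : 1 + W ≠ 0) (hZW : Z ≠ W) :
    ∑ k ∈ S3 (1 + W) (1 + Z), hh e J X Y Z W k =
      N2 e J X Y Z W - hh e J X Y Z W ((1 + W) / ((1 + W) + (1 + Z))) := by
  have hl : (1 + W) + (1 + Z) ≠ 0 := by
    intro h0; apply hZW; grind
  unfold N2 S3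
  rw [eq_sub_iff_add_eq, ← Finset.sum_filter_add_sum_filter_not (S01 F)
    (fun k => k ≠ (1 + W) / ((1 + W) + (1 + Z)))]
  congr 1
  symm
  rw [Finset.sum_eq_single ((1 + W) / ((1 + W) + (1 + Z)))]
  · intro k hk hk2
    rw [mem_filter, not_not] at hk
    exact absurd hk.2 hk2
  · intro h0
    exfalso
    apply h0
    rw [mem_filter, mem_S01]
    refine ⟨⟨div_ne_zero hW hl, ?_⟩, by simp⟩
    intro h1
    rw [div_eq_one_iff_eq hl] at h1
    apply hZ; grind

theorem TL_eq [CharP F 2] (X Y Z W : F) (hZ : 1 + Z ≠ 0) (hW : 1 + W ≠ 0) (hZW : Z ≠ W) :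
    ∑ w ∈ dom F, gg e J X Y Z W w = ∑ w ∈ domU (1 + W) (1 + Z), gg e J X Y Z W w +
      (e (X + Y + (1 + Z)) + e (1 + W)) *
      (N2 e J X Y Z W - hh e J X Y Z W ((1 + W) / ((1 + W) + (1 + Z)))) := by
  rw [← Finset.sum_filter_add_sum_filter_not (dom F)
    (fun w => (1 + W) * w.2 + (1 + Z) * w.1 + (1 + W) ≠ 0 ∧
      (1 + W) * w.2 + (1 + Z) * w.1 + (1 + Z) ≠ 0)]
  congr 1
  have h1 : ∑ w ∈ (dom F).filter (fun w => ¬((1 + W) * w.2 + (1 + Z) * w.1 + (1 + W) ≠ 0 ∧
      (1 + W) * w.2 + (1 + Z) * w.1 + (1 + Z) ≠ 0)), gg e J X Y Z W w =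
      ∑ w ∈ (dom F).filter (fun w => (1 + W) * w.2 + (1 + Z) * w.1 + (1 + Z) = 0),
        gg e J X Y Z W w +
      ∑ w ∈ (dom F).filter (fun w => (1 + W) * w.2 + (1 + Z) * w.1 + (1 + W) = 0),
        gg e J X Y Z W w := by
    rw [← Finset.sum_union]
    · refine Finset.sum_congr ?_ fun _ _ => rfl
      ext w
      simp only [mem_filter, mem_union]
      tauto
    · rw [Finset.disjoint_left]
      intro w hw hw2
      rw [mem_filter] at hw hw2
      apply hZW
      have a1 := hw.2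
      have a2 := hw2.2
      grind
  rw [h1, lineB, lineA X Y Z W hZ hW hZW, sum_S3 X Y Z W hZ hW hZW]
  have h2 : e (X + Y + Z + W) * e (X + Y + (1 + Z)) = e (1 + W) := by
    rw [← AddChar.map_add_eq_mul]
    congr 1; grind
  rw [← h2]; ring

theorem rr [CharP F 2] (h : Bes e J) (X Y Z W : Fˣ) :
    rho e J (X * Z) * rho e J (Y * W) =
      N2 e J X Y W Z + if (X : F) * Z = Y * W then 1 else 0 := by
  have h1 : rho e J (X * Z) * rho e J (Y * W) =
      ∑ r : Fˣ, ∑ s : Fˣ, e ((1 + r) * s) * (J (X * Z * s) * J (r * (Y * W) * s)) := by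
    unfold rho
    rw [neg_mul_neg, Finset.sum_mul_sum]
    have h2 : ∀ s : Fˣ, ∑ t : Fˣ, e s * J (s * (X * Z)) * (e t * J (t * (Y * W))) =
        ∑ r : Fˣ, e ((1 + r) * s) * (J (X * Z * s) * J (r * (Y * W) * s)) := by
      intro s
      rw [← sum_scale (fun t => e s * J (s * (X * Z)) * (e t * J (t * (Y * W)))) s s.ne_zero]
      refine Finset.sum_congr rfl fun r _ => ?_
      have e1 : (1 + (r : F)) * s = s + s * r := by ring
      have e2 : (s : F) * (X * Z) = X * Z * s := by ring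
      have e3 : (s : F) * r * (Y * W) = r * (Y * W) * s := by ring
      rw [e1, e2, e3, AddChar.map_add_eq_mul]; ring
    rw [Finset.sum_congr rfl fun s _ => h2 s, Finset.sum_comm]
  rw [h1, sum_units_S01 (fun r : F => ∑ s : Fˣ, e ((1 + r) * s) *
    (J (X * Z * s) * J (r * (Y * W) * s)))]
  rw [add_comm]
  congr 1
  · unfold N2
    refine Finset.sum_nbij' (fun r => r / (1 + r)) (fun k => k / (1 + k)) ?_ ?_ ?_ ?_ ?_
    · intro r hr
      rw [mem_S01] at hr ⊢
      have hr1 : 1 + r ≠ 0 := fun h0 => hr.2 (CharTwo.add_eq_zero.1 h0).symm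
      refine ⟨div_ne_zero hr.1 hr1, ?_⟩
      intro h0
      rw [div_eq_one_iff_eq hr1] at h0
      simp at h0
    · intro r hr
      rw [mem_S01] at hr ⊢
      have hr1 : 1 + r ≠ 0 := fun h0 => hr.2 (CharTwo.add_eq_zero.1 h0).symm
      refine ⟨div_ne_zero hr.1 hr1, ?_⟩
      intro h0
      rw [div_eq_one_iff_eq hr1] at h0
      simp at h0
    · intro r hr
      rw [mem_S01] at hr
      have hr1 : 1 + r ≠ 0 := fun h0 => hr.2 (CharTwo.add_eq_zero.1 h0).symm
      have h2 : 1 + r / (1 + r) = 1 / (1 + r) := by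
        field_simp
        grind
      show r / (1 + r) / (1 + r / (1 + r)) = r
      rw [h2]; field_simp
    · intro r hr
      rw [mem_S01] at hr
      have hr1 : 1 + r ≠ 0 := fun h0 => hr.2 (CharTwo.add_eq_zero.1 h0).symm
      have h2 : 1 + r / (1 + r) = 1 / (1 + r) := by
        field_simp
        grind
      show r / (1 + r) / (1 + r / (1 + r)) = r
      rw [h2]; field_simp
    · intro r hr
      rw [mem_S01] at hr
      have hr1 : 1 + r ≠ 0 := fun h0 => hr.2 (CharTwo.add_eq_zero.1 h0).symm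
      rw [J2s h _ _ _ (mul_ne_zero X.ne_zero Z.ne_zero)
        (mul_ne_zero hr.1 (mul_ne_zero Y.ne_zero W.ne_zero)) hr1]
      unfold hh
      have h2 : 1 + r / (1 + r) = 1 / (1 + r) := by
        field_simp
        grind
      rw [h2]
      congr 2
      · field_simp
      · field_simp
  · have e1 : ∀ s : Fˣ, e ((1 + (1 : F)) * s) * (J (X * Z * s) * J (1 * (Y * W) * s)) =
        J (X * Z * s) * J (Y * W * s) := by
      intro s
      rw [CharTwo.add_self_eq_zero, zero_mul, AddChar.map_zero_eq_one, one_mul, one_mul]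
    rw [Finset.sum_congr rfl fun s _ => e1 s, J1s h _ _ (mul_ne_zero X.ne_zero Z.ne_zero)
      (mul_ne_zero Y.ne_zero W.ne_zero)]

/-- the symmetric form of the entry. -/
theorem PP_symm [CharP F 2] (h : Bes e J) (h1 : e 1 = -1) (X Y Z W : Fˣ) (hZ : 1 + (Z : F) ≠ 0)
    (hW : 1 + (W : F) ≠ 0) (hZW : (Z : F) ≠ W) :
    PP e J X Y Z W - (e (X + Y + W) + e Z) * (rho e J (X * Z) * rho e J (Y * W)) -
      (if X = Z ∧ Y = W then (Fintype.card F : ℂ) * e Y else 0) =
    PP e J X Y W Z - (e (X + Y + Z) + e W) * (rho e J (X * W) * rho e J (Y * Z)) -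
      (if X = W ∧ Y = Z then (Fintype.card F : ℂ) * e Y else 0) := by
  rw [PP_split h h1, PP_split h h1, TL_eq _ _ _ _ hZ hW hZW, TL_eq _ _ _ _ hW hZ (Ne.symm hZW),
    rr h, rr h, TU_symm (X : F) Y Z W hZ hW]
  have n1 : e ((X : F) + Y + (1 + Z)) = - e (X + Y + Z) := by
    have : (X : F) + Y + (1 + Z) = X + Y + Z + 1 := by ring
    rw [this, AddChar.map_add_eq_mul, h1]; ring
  have n2 : e ((X : F) + Y + (1 + W)) = - e (X + Y + W) := by
    have : (X : F) + Y + (1 + W) = X + Y + W + 1 := by ring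
    rw [this, AddChar.map_add_eq_mul, h1]; ring
  have n3 : e (1 + (Z : F)) = - e Z := by
    rw [AddChar.map_add_eq_mul, h1]; ring
  have n4 : e (1 + (W : F)) = - e W := by
    rw [AddChar.map_add_eq_mul, h1]; ring
  rw [n1, n2, n3, n4]
  have hl : (1 + (W : F)) + (1 + Z) ≠ 0 := by
    intro h0; apply hZW; grind
  have hl' : (1 + (Z : F)) + (1 + W) ≠ 0 := by
    intro h0; apply hZW; grind
  -- the excluded points
  have t0 : hh e J X Y W Z ((1 + (Z : F)) / ((1 + Z) + (1 + W))) =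
      e (X + Y) * hh e J X Y Z W ((1 + (W : F)) / ((1 + W) + (1 + Z))) := by
    unfold hh
    rw [← mul_assoc (e _) (e _) (J _), ← AddChar.map_add_eq_mul]
    have g1 : 1 + (1 + (Z : F)) / ((1 + Z) + (1 + W)) = (1 + W) / ((1 + W) + (1 + Z)) := by
      field_simp
      grind
    have g2 : 1 + (1 + (W : F)) / ((1 + W) + (1 + Z)) = (1 + Z) / ((1 + Z) + (1 + W)) := by
      field_simp
      grind
    rw [g1, g2]
    congr 2
    · field_simp
      grind
    · ring
  rw [t0]
  have m1 : e ((X : F) + Y) * e (X + Y + W) = e W := by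
    rw [← AddChar.map_add_eq_mul]; congr 1; grind
  have m2 : e ((X : F) + Y) * e (W : F) = e (X + Y + W) := by
    rw [← AddChar.map_add_eq_mul]
  have m3 : e ((X : F) + Y) * e (X + Y + Z) = e Z := by
    rw [← AddChar.map_add_eq_mul]; congr 1; grind
  have m4 : e ((X : F) + Y) * e (Z : F) = e (X + Y + Z) := by
    rw [← AddChar.map_add_eq_mul]
  -- the diagonal terms
  have d1 : (if (X : F) * Z = Y * W then -(e (X + Y + W)) *
        ((if (X : F) + Y + Z + W = 0 then (Fintype.card F : ℂ) else 0) - 1 - e (X + Y + Z + W))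
      else 0) = (e (X + Y + W) + e Z) * (if (X : F) * Z = Y * W then 1 else 0) -
      if X = W ∧ Y = Z then (Fintype.card F : ℂ) * e Y else 0 := by
    by_cases c1 : (X : F) * Z = Y * W
    · rw [if_pos c1, if_pos c1]
      have c2 : ((X : F) + Y + Z + W = 0) ↔ (X = W ∧ Y = Z) := by
        constructor
        · intro h0
          have h2 : (X + W : F) * (Z + W) = 0 := by grind
          rcases mul_eq_zero.1 h2 with h3 | h3
          · have h4 : (X : F) = W := CharTwo.add_eq_zero.1 h3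
            refine ⟨Units.ext h4, Units.ext ?_⟩
            grind
          · exact absurd (CharTwo.add_eq_zero.1 h3) hZW
        · rintro ⟨rfl, rfl⟩
          grind
      simp only [c2]
      have c3 : e ((X : F) + Y + W) * e (X + Y + Z + W) = e Z := by
        rw [← AddChar.map_add_eq_mul]; congr 1; grind
      by_cases c4 : X = W ∧ Y = Z
      · rw [if_pos c4, if_pos c4]
        obtain ⟨rfl, rfl⟩ := c4
        have c5 : e ((X : F) + Y + X) = e Y := by congr 1; grind
        rw [c5] at c3 ⊢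
        linear_combination c3
      · rw [if_neg c4, if_neg c4]
        linear_combination c3
    · rw [if_neg c1, if_neg c1]
      have c2 : ¬ (X = W ∧ Y = Z) := by
        rintro ⟨rfl, rfl⟩
        exact c1 (mul_comm _ _)
      rw [if_neg c2]; ring
  have d2 : (if (X : F) * W = Y * Z then -(e (X + Y + Z)) *
        ((if (X : F) + Y + W + Z = 0 then (Fintype.card F : ℂ) else 0) - 1 - e (X + Y + W + Z))
      else 0) = (e (X + Y + Z) + e W) * (if (X : F) * W = Y * Z then 1 else 0) -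
      if X = Z ∧ Y = W then (Fintype.card F : ℂ) * e Y else 0 := by
    by_cases c1 : (X : F) * W = Y * Z
    · rw [if_pos c1, if_pos c1]
      have c2 : ((X : F) + Y + W + Z = 0) ↔ (X = Z ∧ Y = W) := by
        constructor
        · intro h0
          have h2 : (X + Z : F) * (W + Z) = 0 := by grind
          rcases mul_eq_zero.1 h2 with h3 | h3
          · have h4 : (X : F) = Z := CharTwo.add_eq_zero.1 h3
            refine ⟨Units.ext h4, Units.ext ?_⟩
            grind
          · exact absurd (CharTwo.add_eq_zero.1 h3).symm hZW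
        · rintro ⟨rfl, rfl⟩
          grind
      simp only [c2]
      have c3 : e ((X : F) + Y + Z) * e (X + Y + W + Z) = e W := by
        rw [← AddChar.map_add_eq_mul]; congr 1; grind
      by_cases c4 : X = Z ∧ Y = W
      · rw [if_pos c4, if_pos c4]
        obtain ⟨rfl, rfl⟩ := c4
        have c5 : e ((X : F) + Y + X) = e Y := by congr 1; grind
        rw [c5] at c3 ⊢
        linear_combination c3
      · rw [if_neg c4, if_neg c4]
        linear_combination c3
    · rw [if_neg c1, if_neg c1]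
      have c2 : ¬ (X = Z ∧ Y = W) := by
        rintro ⟨rfl, rfl⟩
        exact c1 (mul_comm _ _)
      rw [if_neg c2]; ring
  rw [d1, d2]
  linear_combination (hh e J X Y Z W ((1 + (W : F)) / ((1 + W) + (1 + Z)))) * (-m1 - m4 )

end Pool.Agent.K3h39.KR
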