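import Mathlib
import Pool.Agent.K3h39.KR.Lines

/-! The commuting matrices. -/

set_option linter.unusedSimpArgs false
set_option linter.unusedSectionVars false

namespace Pool.Agent.K3h39.KR

open Finset Matrix Sum

variable {F : Type*} [Field F] [Fintype F] [DecidableEq F]

/-- the matrices `K z`. -/
noncomputable def Km (e : AddChar F ℂ) (J : F → ℂ) (s : ℂ) (z : Fˣ) :
    Matrix (Fˣ ⊕ Fin 3) (Fˣ ⊕ Fin 3) ℂ :=
  fun i j => match i, j with
  | inl x, inl y => e x * c0 e J x y z
  | inl x, inr 0 => -(e x * rho e J (x * z))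
  | inl x, inr 1 => e z * rho e J (x * z)
  | inl x, inr 2 => if x = z then s else 0
  | inr 0, inl y => e (y + z) * rho e J (y * z)
  | inr 0, inr 0 => 0
  | inr 0, inr 1 => e z
  | inr 0, inr 2 => 0
  | inr 1, inl y => -rho e J (y * z)
  | inr 1, inr 0 => -1
  | inr 1, inr 1 => 0
  | inr 1, inr 2 => 0
  | inr 2, inl y => if y = z then -(s * e y) else 0
  | inr 2, inr 0 => 0
  | inr 2, inr 1 => 0
  | inr 2, inr 2 => 0

/-- the matrix `R`. -/
noncomputable def Rm (e : AddChar F ℂ) (J : F → ℂ) (s : ℂ) :
    Matrix (Fˣ ⊕ Fin 3) (Fˣ ⊕ Fin 3) ℂ :=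
  fun i j => match i, j with
  | inl x, inl y => rho e J (x * y) * e y
  | inl _, inr 0 => 0
  | inl _, inr 1 => 1
  | inl _, inr 2 => 0
  | inr 0, inl y => e y
  | inr 0, inr 0 => 0
  | inr 0, inr 1 => 1
  | inr 0, inr 2 => 0
  | inr 1, inl _ => 0
  | inr 1, inr 0 => 0
  | inr 1, inr 1 => 0
  | inr 1, inr 2 => s
  | inr 2, inl _ => 0
  | inr 2, inr 0 => -s
  | inr 2, inr 1 => 0
  | inr 2, inr 2 => 0

theorem sum_u3 (f : Fˣ ⊕ Fin 3 → ℂ) :
    ∑ i, f i = ∑ y : Fˣ, f (inl y) + (f (inr 0) + f (inr 1) + f (inr 2)) := by
  rw [Fintype.sum_sum_type, Fin.sum_univ_three]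

section
variable [CharP F 2] {e : AddChar F ℂ} {J : F → ℂ}

theorem T1 (h : Bes e J) (h1 : e 1 = -1) (X Y Z : Fˣ) :
    ∑ w : Fˣ, c0 e J X w Z * rho e J (w * Y) =
      rho e J (X * Z) + e X * e Z * SS e J ((1 + Z) * (1 + X)) (1 + Y) (X * Y * Z) := by
  rw [A_eq h]
  have : e (1 + (X : F) + Z) = -(e X * e Z) := by
    rw [AddChar.map_add_eq_mul, AddChar.map_add_eq_mul, h1]; ring
  rw [this]; ring

theorem T2 (h1 : e 1 = -1) (X Z : Fˣ) (f : Fˣ → ℂ) :
    ∑ w : Fˣ, e w * (c0 e J X w Z * f w) = -(e X * e Z) * ∑ w : Fˣ, c0 e J X w Z * f w := by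
  rw [Finset.mul_sum]
  refine Finset.sum_congr rfl fun w _ => ?_
  have h2 := c0_supp (e := e) (J := J) (X : F) w Z
  have h3 : e (1 + (X : F) + w + Z) = -(e X * e w * e Z) := by
    rw [AddChar.map_add_eq_mul, AddChar.map_add_eq_mul, AddChar.map_add_eq_mul, h1]; ring
  rw [h3] at h2
  have h4 := e_self e (w : F)
  linear_combination (-e (w : F) * f w) * h2 - (e (X : F) * e Z * c0 e J X w Z * f w) * h4

theorem T3 (X Y Z : Fˣ) (hZ : 1 + (Z : F) ≠ 0) (hY : 1 + (Y : F) ≠ 0) :
    SS e J ((1 + Z) * (1 + X)) (1 + Y) (X * Y * Z) = SS e J ((1 + Y) * (1 + X)) (1 + Z) (X * Z * Y) := by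
  rw [SS_scale _ _ _ ((1 + (Y : F)) / (1 + Z)) (div_ne_zero hY hZ)]
  congr 1
  · field_simp
  · field_simp
  · ring

theorem T4 (X Y Z : Fˣ) (hZ : 1 + (Z : F) ≠ 0) :
    SS e J ((1 + Z) * (1 + X)) (1 + Y) (X * Y * Z) = SS e J ((1 + Z) * (1 + Y)) (1 + X) (Y * X * Z) := by
  rw [SS_scale _ _ _ (1 / (1 + (Z : F))) (div_ne_zero one_ne_zero hZ), SS_symm]
  congr 1
  · field_simp
  · field_simp
  · ring

theorem c0_cyc (x y z : F) : c0 e J x y z = c0 e J y x z := c0_swap12 x y z

theorem rho_comm (x y : F) : rho e J (x * y) = rho e J (y * x) := by rw [mul_comm]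

theorem KK_comm (h : Bes e J) (h1 : e 1 = -1) (s : ℂ) (hs : s * s = Fintype.card F) (z z' : Fˣ)
    (hz : 1 + (z : F) ≠ 0) (hz' : 1 + (z' : F) ≠ 0) :
    Km e J s z * Km e J s z' = Km e J s z' * Km e J s z := by
  by_cases hzz : z = z'
  · rw [hzz]
  have hzz' : ¬ z' = z := fun h0 => hzz h0.symm
  have hne := e_ne e h1
  have hzF : (z : F) ≠ z' := fun h0 => hzz (Units.ext h0)
  have hzF' : (z' : F) ≠ z := fun h0 => hzF h0.symm
  have rr1 : ∑ w : Fˣ, rho e J (w * z) * rho e J (w * z') = -1 := by
    have := rho_mul_rho h hne (z : F) z' z.ne_zero z'.ne_zero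
    rw [if_neg hzF] at this
    rw [Finset.sum_congr rfl fun w _ => by rw [mul_comm (w : F), mul_comm (w : F)], this]
    ring
  have rr2 : ∑ w : Fˣ, rho e J (w * z') * rho e J (w * z) = -1 := by
    rw [← rr1]
    exact Finset.sum_congr rfl fun w _ => mul_comm _ _
  have ee : ∀ w : F, e w * e w = 1 := e_self e
  have eadd : ∀ a b : F, e (a + b) = e a * e b := AddChar.map_add_eq_mul e
  ext i j
  rcases i with x | i
  · rcases j with t | j
    · rw [Matrix.mul_apply, sum_u3, Matrix.mul_apply, sum_u3]
      simp only [Km]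
      have key := PP_symm h h1 x t z z' hz hz' hzF
      unfold PP at key
      have c1 : ((if x = z then s else 0) * if t = z' then -(s * e t) else 0) =
          -(if x = z ∧ t = z' then (Fintype.card F : ℂ) * e t else 0) := by
        by_cases a1 : x = z
        · by_cases a2 : t = z'
          · simp only [a1, a2, and_self, if_true]
            linear_combination (-e (z' : F)) * hs
          · simp [a1, a2]
        · simp [a1]
      have c2 : ((if x = z' then s else 0) * if t = z then -(s * e t) else 0) =
          -(if x = z' ∧ t = z then (Fintype.card F : ℂ) * e t else 0) := by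
        by_cases a1 : x = z'
        · by_cases a2 : t = z
          · simp only [a1, a2, and_self, if_true]
            linear_combination (-e (z : F)) * hs
          · simp [a1, a2]
        · simp [a1]
      rw [c1, c2]
      simp only [eadd] at key ⊢
      linear_combination key
    · fin_cases j
      · show (Km e J s z * Km e J s z') (inl x) (inr 0) = (Km e J s z' * Km e J s z) (inl x) (inr 0)
        rw [Matrix.mul_apply, sum_u3, Matrix.mul_apply, sum_u3]
        simp only [Km, mul_zero, zero_add, add_zero]
        have a1 : ∀ a b : Fˣ, ∑ w : Fˣ, e x * c0 e J x w a * -(e w * rho e J (w * b)) =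
            e a * ∑ w : Fˣ, c0 e J x w a * rho e J (w * b) := by
          intro a b
          have := T2 (J := J) h1 x a (fun w => rho e J (w * b))
          have h5 : ∑ w : Fˣ, e x * c0 e J x w a * -(e w * rho e J (w * b)) =
              - e x * ∑ w : Fˣ, e w * (c0 e J x w a * rho e J (w * b)) := by
            rw [Finset.mul_sum]
            exact Finset.sum_congr rfl fun w _ => by ring
          rw [h5, this]
          linear_combination (e (a : F) * ∑ w : Fˣ, c0 e J x w a * rho e J (w * b)) * ee x
        rw [a1, a1, T1 h h1, T1 h h1, T3 x z' z hz hz']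
        linear_combination (e (x : F) * SS e J ((1 + z') * (1 + x)) (1 + z) (x * z * z')) *
          (ee z - ee z')
      · show (Km e J s z * Km e J s z') (inl x) (inr 1) = (Km e J s z' * Km e J s z) (inl x) (inr 1)
        rw [Matrix.mul_apply, sum_u3, Matrix.mul_apply, sum_u3]
        simp only [Km, mul_zero, zero_add, add_zero]
        have a1 : ∀ a b : Fˣ, ∑ w : Fˣ, e x * c0 e J x w a * (e b * rho e J (w * b)) =
            e x * e b * ∑ w : Fˣ, c0 e J x w a * rho e J (w * b) := by
          intro a b
          rw [Finset.mul_sum]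
          exact Finset.sum_congr rfl fun w _ => by ring
        rw [a1, a1, T1 h h1, T1 h h1, T3 x z' z hz hz']
        ring
      · show (Km e J s z * Km e J s z') (inl x) (inr 2) = (Km e J s z' * Km e J s z) (inl x) (inr 2)
        rw [Matrix.mul_apply, sum_u3, Matrix.mul_apply, sum_u3]
        simp only [Km, mul_zero, zero_add, add_zero, mul_ite]
        rw [Finset.sum_ite_eq', Finset.sum_ite_eq', if_pos (mem_univ _), if_pos (mem_univ _),
          c0_swap23]
  · fin_cases i
    · rcases j with t | j
      · show (Km e J s z * Km e J s z') (inr 0) (inl t) = (Km e J s z' * Km e J s z) (inr 0) (inl t)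
        rw [Matrix.mul_apply, sum_u3, Matrix.mul_apply, sum_u3]
        simp only [Km, zero_mul, zero_add, add_zero]
        have a1 : ∀ a b : Fˣ, ∑ w : Fˣ, e (w + a) * rho e J (w * a) * (e w * c0 e J w t b) =
            e a * ∑ w : Fˣ, c0 e J t w b * rho e J (w * a) := by
          intro a b
          rw [Finset.mul_sum]
          refine Finset.sum_congr rfl fun w _ => ?_
          rw [eadd, c0_swap12 (w : F)]
          linear_combination (e (a : F) * rho e J (w * a) * c0 e J t w b) * ee w
        rw [a1, a1, T1 h h1, T1 h h1, T3 t z z' hz' hz]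
        ring
      · fin_cases j
        · show (Km e J s z * Km e J s z') (inr 0) (inr 0) = (Km e J s z' * Km e J s z) (inr 0) (inr 0)
          rw [Matrix.mul_apply, sum_u3, Matrix.mul_apply, sum_u3]
          simp only [Km, zero_mul, mul_zero, zero_add, add_zero]
          have a1 : ∀ a b : Fˣ, ∑ w : Fˣ, e (w + a) * rho e J (w * a) * -(e w * rho e J (w * b)) =
              - e a * ∑ w : Fˣ, rho e J (w * a) * rho e J (w * b) := by
            intro a b
            rw [Finset.mul_sum]
            refine Finset.sum_congr rfl fun w _ => ?_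
            rw [eadd]
            linear_combination (- e (a : F) * rho e J (w * a) * rho e J (w * b)) * ee w
          rw [a1, a1, rr1, rr2]
          ring
        · show (Km e J s z * Km e J s z') (inr 0) (inr 1) = (Km e J s z' * Km e J s z) (inr 0) (inr 1)
          rw [Matrix.mul_apply, sum_u3, Matrix.mul_apply, sum_u3]
          simp only [Km, zero_mul, mul_zero, zero_add, add_zero, eadd]
          exact Finset.sum_congr rfl fun w _ => by ring
        · show (Km e J s z * Km e J s z') (inr 0) (inr 2) = (Km e J s z' * Km e J s z) (inr 0) (inr 2)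
          rw [Matrix.mul_apply, sum_u3, Matrix.mul_apply, sum_u3]
          simp only [Km, zero_mul, mul_zero, zero_add, add_zero, mul_ite]
          rw [Finset.sum_ite_eq', Finset.sum_ite_eq', if_pos (mem_univ _), if_pos (mem_univ _),
            add_comm (z' : F), mul_comm (z' : F)]
    · rcases j with t | j
      · show (Km e J s z * Km e J s z') (inr 1) (inl t) = (Km e J s z' * Km e J s z) (inr 1) (inl t)
        rw [Matrix.mul_apply, sum_u3, Matrix.mul_apply, sum_u3]
        simp only [Km, zero_mul, zero_add, add_zero]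
        have a1 : ∀ a b : Fˣ, ∑ w : Fˣ, -rho e J (w * a) * (e w * c0 e J w t b) =
            e t * e b * ∑ w : Fˣ, c0 e J t w b * rho e J (w * a) := by
          intro a b
          have := T2 (J := J) h1 t b (fun w => rho e J (w * a))
          have h5 : ∑ w : Fˣ, -rho e J (w * a) * (e w * c0 e J w t b) =
              - ∑ w : Fˣ, e w * (c0 e J t w b * rho e J (w * a)) := by
            rw [← Finset.sum_neg_distrib]
            refine Finset.sum_congr rfl fun w _ => ?_
            rw [c0_swap12 (w : F)]; ring
          rw [h5, this]; ring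
        rw [a1, a1, T1 h h1, T1 h h1, T3 t z z' hz' hz]
        simp only [eadd]
        linear_combination (SS e J ((1 + z) * (1 + t)) (1 + z') (t * z' * z)) *
          (e (z' : F) * e (z' : F) * ee t + ee z') - (SS e J ((1 + z) * (1 + t)) (1 + z') (t * z' * z)) *
          (e (z : F) * e (z : F) * ee t + ee z)
      · fin_cases j
        · show (Km e J s z * Km e J s z') (inr 1) (inr 0) = (Km e J s z' * Km e J s z) (inr 1) (inr 0)
          rw [Matrix.mul_apply, sum_u3, Matrix.mul_apply, sum_u3]
          simp only [Km, zero_mul, mul_zero, zero_add, add_zero]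
          exact Finset.sum_congr rfl fun w _ => by ring
        · show (Km e J s z * Km e J s z') (inr 1) (inr 1) = (Km e J s z' * Km e J s z) (inr 1) (inr 1)
          rw [Matrix.mul_apply, sum_u3, Matrix.mul_apply, sum_u3]
          simp only [Km, zero_mul, mul_zero, zero_add, add_zero]
          have a1 : ∀ a b : Fˣ, ∑ w : Fˣ, -rho e J (w * a) * (e b * rho e J (w * b)) =
              - e b * ∑ w : Fˣ, rho e J (w * a) * rho e J (w * b) := by
            intro a b
            rw [Finset.mul_sum]
            exact Finset.sum_congr rfl fun w _ => by ring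
          rw [a1, a1, rr1, rr2]
          ring
        · show (Km e J s z * Km e J s z') (inr 1) (inr 2) = (Km e J s z' * Km e J s z) (inr 1) (inr 2)
          rw [Matrix.mul_apply, sum_u3, Matrix.mul_apply, sum_u3]
          simp only [Km, zero_mul, mul_zero, zero_add, add_zero, mul_ite]
          rw [Finset.sum_ite_eq', Finset.sum_ite_eq', if_pos (mem_univ _), if_pos (mem_univ _),
            mul_comm (z' : F)]
    · rcases j with t | j
      · show (Km e J s z * Km e J s z') (inr 2) (inl t) = (Km e J s z' * Km e J s z) (inr 2) (inl t)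
        rw [Matrix.mul_apply, sum_u3, Matrix.mul_apply, sum_u3]
        simp only [Km, zero_mul, mul_zero, zero_add, add_zero, ite_mul]
        rw [Finset.sum_ite_eq', Finset.sum_ite_eq', if_pos (mem_univ _), if_pos (mem_univ _),
          c0_swap23 (z : F), c0_swap12 (z : F), c0_swap23 (z' : F)]
        have c3 : c0 e J z' t z = c0 e J z' z t := c0_swap23 _ _ _
        rw [c3]
        linear_combination (-s * c0 e J z' z t) * (ee z - ee z')
      · fin_cases j
        · show (Km e J s z * Km e J s z') (inr 2) (inr 0) = (Km e J s z' * Km e J s z) (inr 2) (inr 0)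
          rw [Matrix.mul_apply, sum_u3, Matrix.mul_apply, sum_u3]
          simp only [Km, zero_mul, mul_zero, zero_add, add_zero, ite_mul]
          rw [Finset.sum_ite_eq', Finset.sum_ite_eq', if_pos (mem_univ _), if_pos (mem_univ _),
            mul_comm (z' : F)]
          linear_combination (s * rho e J (z * z')) * (ee z - ee z')
        · show (Km e J s z * Km e J s z') (inr 2) (inr 1) = (Km e J s z' * Km e J s z) (inr 2) (inr 1)
          rw [Matrix.mul_apply, sum_u3, Matrix.mul_apply, sum_u3]
          simp only [Km, zero_mul, mul_zero, zero_add, add_zero, ite_mul]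
          rw [Finset.sum_ite_eq', Finset.sum_ite_eq', if_pos (mem_univ _), if_pos (mem_univ _),
            mul_comm (z' : F)]
          ring
        · show (Km e J s z * Km e J s z') (inr 2) (inr 2) = (Km e J s z' * Km e J s z) (inr 2) (inr 2)
          rw [Matrix.mul_apply, sum_u3, Matrix.mul_apply, sum_u3]
          simp only [Km, zero_mul, mul_zero, zero_add, add_zero, ite_mul]
          rw [Finset.sum_ite_eq', Finset.sum_ite_eq', if_pos (mem_univ _), if_pos (mem_univ _),
            if_neg hzz, if_neg hzz']
          ring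

end

end Pool.Agent.K3h39.KR
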