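import Mathlib
import Pool.Agent.K3h39.KR.Mats

/-! `K z` commutes with `R`; Hermitian property; `R Rᴴ = N`. -/

set_option linter.unusedSimpArgs false
set_option linter.unusedSectionVars false

namespace Pool.Agent.K3h39.KR

open Finset Matrix Sum

variable {F : Type*} [Field F] [Fintype F] [DecidableEq F] [CharP F 2] {e : AddChar F ℂ} {J : F → ℂ}

theorem KR_comm (h : Bes e J) (h1 : e 1 = -1) (s : ℂ) (hs : s * s = Fintype.card F) (z : Fˣ)
    (hz : 1 + (z : F) ≠ 0) : Km e J s z * Rm e J s = Rm e J s * Km e J s z := by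
  have hne := e_ne e h1
  have hz1 : (z : F) ≠ 1 := fun h0 => hz (by rw [h0, CharTwo.add_self_eq_zero])
  have ee : ∀ w : F, e w * e w = 1 := e_self e
  have eadd : ∀ a b : F, e (a + b) = e a * e b := AddChar.map_add_eq_mul e
  have rr : ∀ a b : Fˣ, ∑ w : Fˣ, rho e J (w * a) * rho e J (w * b) =
      (if a = b then (Fintype.card F : ℂ) else 0) - 1 := by
    intro a b
    have := rho_mul_rho h hne (a : F) b a.ne_zero b.ne_zero
    simp only [Units.val_inj] at this
    rw [← this]
    exact Finset.sum_congr rfl fun w _ => by rw [mul_comm (w : F), mul_comm (w : F)]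
  have sr : ∀ a : Fˣ, ∑ w : Fˣ, rho e J (w * a) = -1 := by
    intro a
    have := sum_rho h hne (a : F) a.ne_zero
    rw [← this]
    exact Finset.sum_congr rfl fun w _ => by rw [mul_comm (w : F)]
  ext i j
  rcases i with x | i
  · rcases j with t | j
    · rw [Matrix.mul_apply, sum_u3, Matrix.mul_apply, sum_u3]
      simp only [Km, Rm, mul_zero, zero_mul, zero_add, add_zero]
      have a1 : ∑ w : Fˣ, e x * c0 e J x w z * (rho e J (w * t) * e t) =
          e x * e t * ∑ w : Fˣ, c0 e J x w z * rho e J (w * t) := by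
        rw [Finset.mul_sum]
        exact Finset.sum_congr rfl fun w _ => by ring
      have a2 : ∑ w : Fˣ, rho e J (x * w) * e w * (e w * c0 e J w t z) =
          ∑ w : Fˣ, c0 e J t w z * rho e J (w * x) := by
        refine Finset.sum_congr rfl fun w _ => ?_
        rw [c0_swap12 (w : F), mul_comm (x : F)]
        linear_combination (rho e J (w * x) * c0 e J t w z) * ee w
      rw [a1, a2, T1 h h1, T1 h h1, T4 x t z hz]
      linear_combination (e (t : F) * e z * SS e J ((1 + z) * (1 + t)) (1 + x) (t * x * z)) * ee x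
    · fin_cases j
      · show (Km e J s z * Rm e J s) (inl x) (inr 0) = (Rm e J s * Km e J s z) (inl x) (inr 0)
        rw [Matrix.mul_apply, sum_u3, Matrix.mul_apply, sum_u3]
        simp only [Km, Rm, mul_zero, zero_mul, zero_add, add_zero, Finset.sum_const_zero]
        have a1 : ∑ w : Fˣ, rho e J (x * w) * e w * -(e w * rho e J (w * z)) =
            -∑ w : Fˣ, rho e J (w * x) * rho e J (w * z) := by
          rw [← Finset.sum_neg_distrib]
          refine Finset.sum_congr rfl fun w _ => ?_
          rw [mul_comm (x : F)]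
          linear_combination (-rho e J (w * x) * rho e J (w * z)) * ee w
        rw [a1, rr]
        split_ifs
        · linear_combination -hs
        · ring
      · show (Km e J s z * Rm e J s) (inl x) (inr 1) = (Rm e J s * Km e J s z) (inl x) (inr 1)
        rw [Matrix.mul_apply, sum_u3, Matrix.mul_apply, sum_u3]
        simp only [Km, Rm, mul_zero, zero_mul, zero_add, add_zero, mul_one, one_mul]
        have a1 := E2 h h1 x z hz1
        have a2 : ∑ w : Fˣ, rho e J (x * w) * e w * (e z * rho e J (w * z)) =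
            e z * ∑ w : Fˣ, e w * (rho e J (x * w) * rho e J (z * w)) := by
          rw [Finset.mul_sum]
          exact Finset.sum_congr rfl fun w _ => by rw [mul_comm (z : F)]; ring
        rw [a2, ← a1, ← Finset.mul_sum]
        ring
      · show (Km e J s z * Rm e J s) (inl x) (inr 2) = (Rm e J s * Km e J s z) (inl x) (inr 2)
        rw [Matrix.mul_apply, sum_u3, Matrix.mul_apply, sum_u3]
        simp only [Km, Rm, mul_zero, zero_mul, zero_add, add_zero, mul_ite, Finset.sum_const_zero]
        rw [Finset.sum_ite_eq', if_pos (mem_univ _)]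
        ring
  · fin_cases i
    · rcases j with t | j
      · show (Km e J s z * Rm e J s) (inr 0) (inl t) = (Rm e J s * Km e J s z) (inr 0) (inl t)
        rw [Matrix.mul_apply, sum_u3, Matrix.mul_apply, sum_u3]
        simp only [Km, Rm, mul_zero, zero_mul, zero_add, add_zero, one_mul]
        have a1 := E2 h h1 t z hz1
        have a2 : ∑ w : Fˣ, e (w + z) * rho e J (w * z) * (rho e J (w * t) * e t) =
            e t * (e z * ∑ w : Fˣ, e w * (rho e J (t * w) * rho e J (z * w))) := by
          rw [Finset.mul_sum, Finset.mul_sum]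
          exact Finset.sum_congr rfl fun w _ => by
            rw [mul_comm (w : F), mul_comm (w : F), eadd]; ring
        have a3 : ∑ w : Fˣ, e w * (e w * c0 e J w t z) = ∑ w : Fˣ, c0 e J t w z := by
          refine Finset.sum_congr rfl fun w _ => ?_
          rw [c0_swap12 (w : F)]
          linear_combination (c0 e J t w z) * ee w
        rw [a2, a3, ← a1]
        linear_combination (∑ w : Fˣ, c0 e J t w z - rho e J (t * z)) * ee t
      · fin_cases j
        · show (Km e J s z * Rm e J s) (inr 0) (inr 0) = (Rm e J s * Km e J s z) (inr 0) (inr 0)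
          rw [Matrix.mul_apply, sum_u3, Matrix.mul_apply, sum_u3]
          simp only [Km, Rm, mul_zero, zero_mul, zero_add, add_zero, Finset.sum_const_zero]
          have a1 : ∑ w : Fˣ, e w * -(e w * rho e J (w * z)) = -∑ w : Fˣ, rho e J (w * z) := by
            rw [← Finset.sum_neg_distrib]
            refine Finset.sum_congr rfl fun w _ => ?_
            linear_combination (- rho e J (w * z)) * ee w
          rw [a1, sr]; ring
        · show (Km e J s z * Rm e J s) (inr 0) (inr 1) = (Rm e J s * Km e J s z) (inr 0) (inr 1)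
          rw [Matrix.mul_apply, sum_u3, Matrix.mul_apply, sum_u3]
          simp only [Km, Rm, mul_zero, zero_mul, zero_add, add_zero, mul_one]
          refine Finset.sum_congr rfl fun w _ => ?_
          rw [eadd]; ring
        · show (Km e J s z * Rm e J s) (inr 0) (inr 2) = (Rm e J s * Km e J s z) (inr 0) (inr 2)
          rw [Matrix.mul_apply, sum_u3, Matrix.mul_apply, sum_u3]
          simp only [Km, Rm, mul_zero, zero_mul, zero_add, add_zero, mul_ite,
            Finset.sum_const_zero]
          rw [Finset.sum_ite_eq', if_pos (mem_univ _)]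
    · rcases j with t | j
      · show (Km e J s z * Rm e J s) (inr 1) (inl t) = (Rm e J s * Km e J s z) (inr 1) (inl t)
        rw [Matrix.mul_apply, sum_u3, Matrix.mul_apply, sum_u3]
        simp only [Km, Rm, mul_zero, zero_mul, zero_add, add_zero, Finset.sum_const_zero]
        have a1 : ∑ w : Fˣ, -rho e J (w * z) * (rho e J (w * t) * e t) =
            - e t * ∑ w : Fˣ, rho e J (w * z) * rho e J (w * t) := by
          rw [Finset.mul_sum]
          exact Finset.sum_congr rfl fun w _ => by ring
        rw [a1, rr]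
        by_cases c1 : t = z
        · rw [if_pos c1, if_pos c1.symm]
          linear_combination (e (t : F)) * hs
        · rw [if_neg c1, if_neg (fun h0 => c1 h0.symm)]
          ring
      · fin_cases j
        · show (Km e J s z * Rm e J s) (inr 1) (inr 0) = (Rm e J s * Km e J s z) (inr 1) (inr 0)
          rw [Matrix.mul_apply, sum_u3, Matrix.mul_apply, sum_u3]
          simp only [Km, Rm, mul_zero, zero_mul, zero_add, add_zero, Finset.sum_const_zero]
        · show (Km e J s z * Rm e J s) (inr 1) (inr 1) = (Rm e J s * Km e J s z) (inr 1) (inr 1)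
          rw [Matrix.mul_apply, sum_u3, Matrix.mul_apply, sum_u3]
          simp only [Km, Rm, mul_zero, zero_mul, zero_add, add_zero, mul_one,
            Finset.sum_const_zero, Finset.sum_neg_distrib]
          rw [sr]; ring
        · show (Km e J s z * Rm e J s) (inr 1) (inr 2) = (Rm e J s * Km e J s z) (inr 1) (inr 2)
          rw [Matrix.mul_apply, sum_u3, Matrix.mul_apply, sum_u3]
          simp only [Km, Rm, mul_zero, zero_mul, zero_add, add_zero, Finset.sum_const_zero]
    · rcases j with t | j
      · show (Km e J s z * Rm e J s) (inr 2) (inl t) = (Rm e J s * Km e J s z) (inr 2) (inl t)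
        rw [Matrix.mul_apply, sum_u3, Matrix.mul_apply, sum_u3]
        simp only [Km, Rm, mul_zero, zero_mul, zero_add, add_zero, ite_mul, Finset.sum_const_zero]
        rw [Finset.sum_ite_eq', if_pos (mem_univ _), eadd, mul_comm (z : F)]
        ring
      · fin_cases j
        · show (Km e J s z * Rm e J s) (inr 2) (inr 0) = (Rm e J s * Km e J s z) (inr 2) (inr 0)
          rw [Matrix.mul_apply, sum_u3, Matrix.mul_apply, sum_u3]
          simp only [Km, Rm, mul_zero, zero_mul, zero_add, add_zero, Finset.sum_const_zero]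
        · show (Km e J s z * Rm e J s) (inr 2) (inr 1) = (Rm e J s * Km e J s z) (inr 2) (inr 1)
          rw [Matrix.mul_apply, sum_u3, Matrix.mul_apply, sum_u3]
          simp only [Km, Rm, mul_zero, zero_mul, zero_add, add_zero, mul_one, ite_mul,
            Finset.sum_const_zero]
          rw [Finset.sum_ite_eq', if_pos (mem_univ _)]
          ring
        · show (Km e J s z * Rm e J s) (inr 2) (inr 2) = (Rm e J s * Km e J s z) (inr 2) (inr 2)
          rw [Matrix.mul_apply, sum_u3, Matrix.mul_apply, sum_u3]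
          simp only [Km, Rm, mul_zero, zero_mul, zero_add, add_zero, Finset.sum_const_zero]

theorem rho_conj (h : Bes e J) (x : F) : (starRingEnd ℂ) (rho e J x) = rho e J x := by
  unfold rho
  rw [map_neg, map_sum]
  congr 1
  refine Finset.sum_congr rfl fun u _ => ?_
  rw [map_mul, e_conj, h.real]

theorem c0_conj (h : Bes e J) (x y z : F) : (starRingEnd ℂ) (c0 e J x y z) = c0 e J x y z := by
  unfold c0
  rw [map_sum]
  refine Finset.sum_congr rfl fun u _ => ?_
  rw [map_mul, e_conj, h.real]

/-- `(K z)ᴴ = -e(z) K z`. -/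
theorem Km_conjTranspose (h : Bes e J) (h1 : e 1 = -1) (s : ℂ) (hsr : (starRingEnd ℂ) s = s)
    (z : Fˣ) : (Km e J s z)ᴴ = (-e (z : F)) • Km e J s z := by
  have ee : ∀ w : F, e w * e w = 1 := e_self e
  have eadd : ∀ a b : F, e (a + b) = e a * e b := AddChar.map_add_eq_mul e
  ext i j
  rw [Matrix.conjTranspose_apply, Matrix.smul_apply, smul_eq_mul]
  show (starRingEnd ℂ) (Km e J s z j i) = _
  rcases i with x | i
  · rcases j with t | j
    · simp only [Km]
      rw [map_mul, c0_conj h, e_conj, c0_swap12]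
      have h2 := c0_supp (e := e) (J := J) (x : F) t z
      simp only [eadd, h1] at h2
      linear_combination (-e (t : F)) * h2 - (e (x : F) * e z * c0 e J x t z) * ee t
    · fin_cases j
      · simp only [Km, Fin.zero_eta]
        rw [map_mul, rho_conj h, e_conj, eadd]
        ring
      · simp only [Km, Fin.mk_one]
        rw [map_neg, rho_conj h]
        linear_combination (rho e J (x * z)) * ee z
      · simp only [Km, Fin.reduceFinMk]
        by_cases c : x = z
        · simp only [c, if_true, map_neg, map_mul, hsr, e_conj]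
          ring
        · simp [c]
  · fin_cases i
    · rcases j with t | j
      · simp only [Km, Fin.zero_eta]
        rw [map_neg, map_mul, rho_conj h, e_conj, eadd]
        linear_combination (e (t : F) * rho e J (t * z)) * ee z
      · fin_cases j
        · simp [Km]
        · simp only [Km, Fin.zero_eta, Fin.mk_one]
          rw [map_neg, map_one]
          linear_combination ee z
        · simp [Km]
    · rcases j with t | j
      · simp only [Km, Fin.mk_one]
        rw [map_mul, e_conj, rho_conj h]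
        ring
      · fin_cases j
        · simp only [Km, Fin.zero_eta, Fin.mk_one]
          rw [e_conj]
          ring
        · simp [Km]
        · simp [Km]
    · rcases j with t | j
      · simp only [Km, Fin.reduceFinMk]
        by_cases c : t = z
        · simp only [c, if_true, hsr]
          linear_combination (-s) * ee z
        · simp [c]
      · fin_cases j
        · simp [Km]
        · simp [Km]
        · simp [Km]

/-- `R Rᴴ = N`. -/
theorem R_unitary (h : Bes e J) (h1 : e 1 = -1) (s : ℂ) (hs : s * s = Fintype.card F)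
    (hsr : (starRingEnd ℂ) s = s) :
    Rm e J s * (Rm e J s)ᴴ = (Fintype.card F : ℂ) • (1 : Matrix (Fˣ ⊕ Fin 3) (Fˣ ⊕ Fin 3) ℂ) := by
  have hne := e_ne e h1
  have ee : ∀ w : F, e w * e w = 1 := e_self e
  have eadd : ∀ a b : F, e (a + b) = e a * e b := AddChar.map_add_eq_mul e
  have hN : (Fintype.card Fˣ : ℂ) = Fintype.card F - 1 := by
    rw [Fintype.card_units, Nat.cast_sub (Fintype.card_pos), Nat.cast_one]
  have hcT : ∀ i j, (Rm e J s)ᴴ i j = Rm e J s j i := by
    intro i j
    rw [Matrix.conjTranspose_apply]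
    show (starRingEnd ℂ) (Rm e J s j i) = _
    rcases j with t | j
    · rcases i with x | i
      · simp only [Rm]
        rw [map_mul, rho_conj h, e_conj]
      · fin_cases i <;> simp [Rm]
    · rcases i with x | i
      · fin_cases j <;> simp [Rm, e_conj]
      · fin_cases j <;> fin_cases i <;> simp [Rm, hsr]
  ext i j
  rw [Matrix.mul_apply, sum_u3, Matrix.smul_apply, smul_eq_mul]
  simp only [hcT]
  rcases i with x | i
  · rcases j with t | j
    · simp only [Rm, mul_zero, zero_mul, zero_add, add_zero, one_mul]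
      have a1 : ∑ w : Fˣ, rho e J (x * w) * e w * (rho e J (t * w) * e w) =
          ∑ w : Fˣ, rho e J (x * w) * rho e J (t * w) := by
        refine Finset.sum_congr rfl fun w _ => ?_
        linear_combination (rho e J (x * w) * rho e J (t * w)) * ee w
      rw [a1, rho_mul_rho h hne _ _ x.ne_zero t.ne_zero]
      by_cases c : x = t
      · subst c; simp
      · have c' : ¬ (x : F) = t := fun h0 => c (Units.ext h0)
        simp [c, c']
    · fin_cases j
      · show ∑ w : Fˣ, rho e J (x * w) * e w * e w + (0 * 0 + 1 * 1 + 0 * 0) =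
          (Fintype.card F : ℂ) * (1 : Matrix (Fˣ ⊕ Fin 3) (Fˣ ⊕ Fin 3) ℂ) (inl x) (inr 0)
        have a1 : ∑ w : Fˣ, rho e J (x * w) * e w * e w = ∑ w : Fˣ, rho e J (x * w) := by
          refine Finset.sum_congr rfl fun w _ => ?_
          linear_combination (rho e J (x * w)) * ee w
        rw [a1, sum_rho h hne _ x.ne_zero]
        simp
      · show ∑ w : Fˣ, rho e J (x * w) * e w * 0 + (0 * 0 + 1 * 0 + 0 * s) =
          (Fintype.card F : ℂ) * (1 : Matrix (Fˣ ⊕ Fin 3) (Fˣ ⊕ Fin 3) ℂ) (inl x) (inr 1)
        simp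
      · show ∑ w : Fˣ, rho e J (x * w) * e w * 0 + (0 * (-s) + 1 * 0 + 0 * 0) =
          (Fintype.card F : ℂ) * (1 : Matrix (Fˣ ⊕ Fin 3) (Fˣ ⊕ Fin 3) ℂ) (inl x) (inr 2)
        simp
  · fin_cases i
    · rcases j with t | j
      · show ∑ w : Fˣ, e w * (rho e J (t * w) * e w) + (0 * 0 + 1 * 1 + 0 * 0) =
          (Fintype.card F : ℂ) * (1 : Matrix (Fˣ ⊕ Fin 3) (Fˣ ⊕ Fin 3) ℂ) (inr 0) (inl t)
        have a1 : ∑ w : Fˣ, e w * (rho e J (t * w) * e w) = ∑ w : Fˣ, rho e J (t * w) := by
          refine Finset.sum_congr rfl fun w _ => ?_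
          linear_combination (rho e J (t * w)) * ee w
        rw [a1, sum_rho h hne _ t.ne_zero]
        simp
      · fin_cases j
        · show ∑ w : Fˣ, e w * e w + (0 * 0 + 1 * 1 + 0 * 0) =
            (Fintype.card F : ℂ) * (1 : Matrix (Fˣ ⊕ Fin 3) (Fˣ ⊕ Fin 3) ℂ) (inr 0) (inr 0)
          simp only [ee]
          simp [hN]
        · show ∑ w : Fˣ, e w * 0 + (0 * 0 + 1 * 0 + 0 * s) =
            (Fintype.card F : ℂ) * (1 : Matrix (Fˣ ⊕ Fin 3) (Fˣ ⊕ Fin 3) ℂ) (inr 0) (inr 1)
          simp
        · show ∑ w : Fˣ, e w * 0 + (0 * (-s) + 1 * 0 + 0 * 0) =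
            (Fintype.card F : ℂ) * (1 : Matrix (Fˣ ⊕ Fin 3) (Fˣ ⊕ Fin 3) ℂ) (inr 0) (inr 2)
          simp
    · rcases j with t | j
      · show ∑ w : Fˣ, 0 * (rho e J (t * w) * e w) + (0 * 0 + 0 * 1 + s * 0) =
          (Fintype.card F : ℂ) * (1 : Matrix (Fˣ ⊕ Fin 3) (Fˣ ⊕ Fin 3) ℂ) (inr 1) (inl t)
        simp
      · fin_cases j
        · show ∑ w : Fˣ, 0 * e w + (0 * 0 + 0 * 1 + s * 0) =
            (Fintype.card F : ℂ) * (1 : Matrix (Fˣ ⊕ Fin 3) (Fˣ ⊕ Fin 3) ℂ) (inr 1) (inr 0)
          simp
        · show ∑ w : Fˣ, (0 : ℂ) * 0 + (0 * 0 + 0 * 0 + s * s) =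
            (Fintype.card F : ℂ) * (1 : Matrix (Fˣ ⊕ Fin 3) (Fˣ ⊕ Fin 3) ℂ) (inr 1) (inr 1)
          simp [hs]
        · show ∑ w : Fˣ, (0 : ℂ) * 0 + (0 * (-s) + 0 * 0 + s * 0) =
            (Fintype.card F : ℂ) * (1 : Matrix (Fˣ ⊕ Fin 3) (Fˣ ⊕ Fin 3) ℂ) (inr 1) (inr 2)
          simp
    · rcases j with t | j
      · show ∑ w : Fˣ, 0 * (rho e J (t * w) * e w) + ((-s) * 0 + 0 * 1 + 0 * 0) =
          (Fintype.card F : ℂ) * (1 : Matrix (Fˣ ⊕ Fin 3) (Fˣ ⊕ Fin 3) ℂ) (inr 2) (inl t)
        simp
      · fin_cases j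
        · show ∑ w : Fˣ, 0 * e w + ((-s) * 0 + 0 * 1 + 0 * 0) =
            (Fintype.card F : ℂ) * (1 : Matrix (Fˣ ⊕ Fin 3) (Fˣ ⊕ Fin 3) ℂ) (inr 2) (inr 0)
          simp
        · show ∑ w : Fˣ, (0 : ℂ) * 0 + ((-s) * 0 + 0 * 0 + 0 * s) =
            (Fintype.card F : ℂ) * (1 : Matrix (Fˣ ⊕ Fin 3) (Fˣ ⊕ Fin 3) ℂ) (inr 2) (inr 1)
          simp
        · show ∑ w : Fˣ, (0 : ℂ) * 0 + ((-s) * (-s) + 0 * 0 + 0 * 0) =
            (Fintype.card F : ℂ) * (1 : Matrix (Fˣ ⊕ Fin 3) (Fˣ ⊕ Fin 3) ℂ) (inr 2) (inr 2)
          simp [hs]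

end Pool.Agent.K3h39.KR
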