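import Mathlib
import Pool.Agent.K3h39.KR.Mats2
import Pool.Agent.R478.BES.Final

/-! Independence of the automorphism. -/

set_option linter.unusedSimpArgs false
set_option linter.unusedSectionVars false

namespace Pool.Agent.K3h39.KR

open Finset Matrix Sum
open Pool.Agent.R478.BES (Pm mul_Pm Pm_mul tau uu coe_uu trace_mul_eq)

variable {F : Type*} [Field F] [Fintype F] [DecidableEq F] [CharP F 2] {e : AddChar F ℂ} {J : F → ℂ}

theorem KRH_comm (h : Bes e J) (h1 : e 1 = -1) (s : ℂ) (hs : s * s = Fintype.card F)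
    (hsr : (starRingEnd ℂ) s = s) (z : Fˣ)
    (hz : 1 + (z : F) ≠ 0) : Km e J s z * (Rm e J s)ᴴ = (Rm e J s)ᴴ * Km e J s z := by
  have h2 := congrArg Matrix.conjTranspose (KR_comm h h1 s hs z hz)
  rw [Matrix.conjTranspose_mul, Matrix.conjTranspose_mul, Km_conjTranspose h h1 s hsr,
    Matrix.mul_smul, Matrix.smul_mul] at h2
  have h3 : (-e (z : F)) ≠ 0 := by
    intro h0
    have := e_self e (z : F)
    rw [neg_eq_zero] at h0
    rw [h0] at this
    simp at this
  exact (smul_right_injective _ h3 h2).symm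

theorem RRH_comm (h : Bes e J) (h1 : e 1 = -1) (s : ℂ) (hs : s * s = Fintype.card F)
    (hsr : (starRingEnd ℂ) s = s) :
    Rm e J s * (Rm e J s)ᴴ = (Rm e J s)ᴴ * Rm e J s := by
  have hN : (Fintype.card F : ℂ) ≠ 0 := by exact_mod_cast Fintype.card_ne_zero
  have h2 := R_unitary h h1 s hs hsr
  have h3 : ((Fintype.card F : ℂ)⁻¹ • Rm e J s) * (Rm e J s)ᴴ = 1 := by
    rw [Matrix.smul_mul, h2, smul_smul, inv_mul_cancel₀ hN, one_smul]
  have h4 := mul_eq_one_comm.1 h3
  rw [Matrix.mul_smul] at h4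
  rw [h2, ← h4, smul_smul, mul_inv_cancel₀ hN, one_smul]

/-- the index set of the commuting family. -/
abbrev Idx (F : Type*) [Field F] := {z : Fˣ // 1 + (z : F) ≠ 0} ⊕ Fin 2

/-- the commuting family. -/
noncomputable def KK (e : AddChar F ℂ) (J : F → ℂ) (s : ℂ) :
    Idx F → Matrix (Fˣ ⊕ Fin 3) (Fˣ ⊕ Fin 3) ℂ
  | inl z => Km e J s z.1
  | inr 0 => Rm e J s + (Rm e J s)ᴴ
  | inr 1 => Rm e J s - (Rm e J s)ᴴ

/-- scalars which make the family Hermitian. -/
noncomputable def cc (e : AddChar F ℂ) : Idx F → ℂ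
  | inl z => if e (z.1 : F) = -1 then 1 else Complex.I
  | inr 0 => 1
  | inr 1 => Complex.I

/-- the action on the index set. -/
def pj (φ : F ≃+* F) : Idx F → Idx F
  | inl z => inl ⟨uu φ z.1, by
      rw [coe_uu]
      intro h0
      apply z.2
      apply φ.injective
      rw [map_add, map_one, h0, map_zero]⟩
  | inr i => inr i

theorem rho_equiv (φ : F ≃+* F) (hφ : ∀ x, e (φ x) = e x) (hJ : ∀ x, J (φ x) = J x) (x : F) :
    rho e J (φ x) = rho e J x := by
  unfold rho
  congr 1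
  symm
  refine Fintype.sum_equiv (Units.mapEquiv (φ : F ≃* F)).toEquiv _ _ fun u => ?_
  show _ = e (φ u) * J (φ u * φ x)
  rw [hφ, ← map_mul, hJ]

theorem c0_equiv (φ : F ≃+* F) (hφ : ∀ x, e (φ x) = e x) (hJ : ∀ x, J (φ x) = J x) (x y z : F) :
    c0 e J (φ x) (φ y) (φ z) = c0 e J x y z := by
  unfold c0
  symm
  refine Finset.sum_nbij' (fun u => φ u) (fun u => φ.symm u) ?_ ?_ ?_ ?_ ?_
  · intro u hu
    rw [mem_S01] at hu ⊢
    refine ⟨fun h0 => hu.1 ?_, fun h0 => hu.2 ?_⟩
    · exact (map_eq_zero φ).1 h0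
    · exact (map_eq_one_iff φ φ.injective).1 h0
  · intro u hu
    rw [mem_S01] at hu ⊢
    refine ⟨fun h0 => hu.1 ?_, fun h0 => hu.2 ?_⟩
    · exact (map_eq_zero φ.symm).1 h0
    · exact (map_eq_one_iff φ.symm φ.symm.injective).1 h0
  · intro u _; exact φ.symm_apply_apply u
  · intro u _; exact φ.apply_symm_apply u
  · intro u _
    have h1 : φ u * (1 + φ x + φ y + φ z) = φ (u * (1 + x + y + z)) := by
      simp only [map_mul, map_add, map_one]
    have h2 : φ x * φ y * φ z * (φ u ^ 2 + φ u) = φ (x * y * z * (u ^ 2 + u)) := by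
      simp only [map_mul, map_add, map_pow]
    rw [h1, h2, hφ, hJ]

theorem Km_equiv (s : ℂ) (φ : F ≃+* F) (hφ : ∀ x, e (φ x) = e x) (hJ : ∀ x, J (φ x) = J x) (z : Fˣ)
    (i j : Fˣ ⊕ Fin 3) : Km e J s (uu φ z) (tau φ i) (tau φ j) = Km e J s z i j := by
  have hinj : ∀ x y : Fˣ, uu φ x = uu φ y ↔ x = y := fun x y =>
    (Units.mapEquiv (φ : F ≃* F)).injective.eq_iff
  rcases i with x | i
  · rcases j with t | j
    · show e (φ x) * c0 e J (φ x) (φ t) (φ z) = _
      rw [c0_equiv φ hφ hJ, hφ]; rfl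
    · fin_cases j
      · show -(e (φ x) * rho e J (φ x * φ z)) = -(e x * rho e J (x * z))
        rw [hφ, ← map_mul, rho_equiv φ hφ hJ]
      · show e (φ z) * rho e J (φ x * φ z) = e z * rho e J (x * z)
        rw [hφ, ← map_mul, rho_equiv φ hφ hJ]
      · show (if uu φ x = uu φ z then s else 0) = if x = z then s else 0
        simp only [hinj]
  · fin_cases i
    · rcases j with t | j
      · show e (φ t + φ z) * rho e J (φ t * φ z) = e (t + z) * rho e J (t * z)
        rw [← map_add, hφ, ← map_mul, rho_equiv φ hφ hJ]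
      · fin_cases j
        · rfl
        · show e (φ z) = e z
          rw [hφ]
        · rfl
    · rcases j with t | j
      · show -rho e J (φ t * φ z) = -rho e J (t * z)
        rw [← map_mul, rho_equiv φ hφ hJ]
      · fin_cases j <;> rfl
    · rcases j with t | j
      · show (if uu φ t = uu φ z then -(s * e (φ t)) else 0) = if t = z then -(s * e t) else 0
        simp only [hinj]
        rw [hφ]
      · fin_cases j <;> rfl

theorem Rm_equiv (s : ℂ) (φ : F ≃+* F) (hφ : ∀ x, e (φ x) = e x) (hJ : ∀ x, J (φ x) = J x)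
    (i j : Fˣ ⊕ Fin 3) : Rm e J s (tau φ i) (tau φ j) = Rm e J s i j := by
  rcases i with x | i
  · rcases j with t | j
    · show rho e J (φ x * φ t) * e (φ t) = rho e J (x * t) * e t
      rw [← map_mul, rho_equiv φ hφ hJ, hφ]
    · fin_cases j <;> rfl
  · rcases j with t | j
    · fin_cases i
      · show e (φ t) = e t
        rw [hφ]
      · rfl
      · rfl
    · fin_cases i <;> fin_cases j <;> rfl

theorem Pm_KK (s : ℂ) (φ : F ≃+* F) (hφ : ∀ x, e (φ x) = e x) (hJ : ∀ x, J (φ x) = J x)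
    (j : Idx F) : Pm (tau φ) * KK e J s j = KK e J s (pj φ j) * Pm (tau φ) := by
  have hR : Pm (tau φ) * Rm e J s = Rm e J s * Pm (tau φ) := by
    ext a b
    obtain ⟨a', rfl⟩ := (tau φ).surjective a
    rw [Pm_mul, mul_Pm, Rm_equiv s φ hφ hJ]
  have hRH : Pm (tau φ) * (Rm e J s)ᴴ = (Rm e J s)ᴴ * Pm (tau φ) := by
    ext a b
    obtain ⟨a', rfl⟩ := (tau φ).surjective a
    rw [Pm_mul, mul_Pm, Matrix.conjTranspose_apply, Matrix.conjTranspose_apply,
      Rm_equiv s φ hφ hJ]
  rcases j with z | i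
  · show Pm (tau φ) * Km e J s z.1 = Km e J s (uu φ z.1) * Pm (tau φ)
    ext a b
    obtain ⟨a', rfl⟩ := (tau φ).surjective a
    rw [Pm_mul, mul_Pm, Km_equiv s φ hφ hJ]
  · fin_cases i
    · show Pm (tau φ) * (Rm e J s + (Rm e J s)ᴴ) = (Rm e J s + (Rm e J s)ᴴ) * Pm (tau φ)
      rw [Matrix.mul_add, Matrix.add_mul, hR, hRH]
    · show Pm (tau φ) * (Rm e J s - (Rm e J s)ᴴ) = (Rm e J s - (Rm e J s)ᴴ) * Pm (tau φ)
      rw [Matrix.mul_sub, Matrix.sub_mul, hR, hRH]

theorem trace_R (s : ℂ) (φ : F ≃+* F) (hφ : ∀ x, e (φ x) = e x) :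
    (Rm e J s * Pm (tau φ)).trace = ∑ x : Fˣ, e x * rho e J (x * φ x) := by
  rw [Matrix.trace, sum_u3]
  simp only [Matrix.diag_apply, mul_Pm]
  have h : Rm e J s (inr 0) (tau φ (inr 0)) + Rm e J s (inr 1) (tau φ (inr 1)) +
    Rm e J s (inr 2) (tau φ (inr 2)) = 0 := by
    show (0 : ℂ) + 0 + 0 = 0
    ring
  rw [h, add_zero]
  refine Finset.sum_congr rfl fun x _ => ?_
  show rho e J (x * φ x) * e (φ x) = _
  rw [hφ, mul_comm]

/-- cyclicity. -/
theorem cyclic (s : ℂ) (hs : s * s = Fintype.card F) (hsr : (starRingEnd ℂ) s = s)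
    (W : Submodule ℂ (Fˣ ⊕ Fin 3 → ℂ))
    (hv : Pi.single (inr 2) 1 ∈ W) (hW : ∀ j, ∀ w ∈ W, KK e J s j *ᵥ w ∈ W) : W = ⊤ := by
  have hs0 : s ≠ 0 := by
    rintro rfl
    have : (Fintype.card F : ℂ) ≠ 0 := by
      exact_mod_cast Fintype.card_ne_zero
    exact this (by rw [← hs, mul_zero])
  have hR : ∀ w ∈ W, Rm e J s *ᵥ w ∈ W := by
    intro w hw
    have h1 := hW (inr 0) w hw
    have h2 := hW (inr 1) w hw
    have h3 := Submodule.smul_mem W (1 / 2 : ℂ) (Submodule.add_mem _ h1 h2)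
    have h4 : (1 / 2 : ℂ) • ((Rm e J s + (Rm e J s)ᴴ) *ᵥ w + (Rm e J s - (Rm e J s)ᴴ) *ᵥ w) =
        Rm e J s *ᵥ w := by
      rw [Matrix.add_mulVec, Matrix.sub_mulVec]
      module
    rw [← h4]; exact h3
  have hRH : ∀ w ∈ W, (Rm e J s)ᴴ *ᵥ w ∈ W := by
    intro w hw
    have h1 := hW (inr 0) w hw
    have h2 := hR w hw
    have h3 := Submodule.sub_mem W h1 h2
    have h4 : (Rm e J s + (Rm e J s)ᴴ) *ᵥ w - Rm e J s *ᵥ w = (Rm e J s)ᴴ *ᵥ w := by
      rw [Matrix.add_mulVec]
      module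
    rw [← h4]; exact h3
  -- the vectors at points
  have hpt : ∀ z : Fˣ, 1 + (z : F) ≠ 0 → (Pi.single (inl z) (1 : ℂ) : Fˣ ⊕ Fin 3 → ℂ) ∈ W := by
    intro z hz
    have h1 := hW (inl ⟨z, hz⟩) _ hv
    rw [Matrix.mulVec_single_one] at h1
    have h2 : (KK e J s (inl ⟨z, hz⟩)).col (inr 2) = s • (Pi.single (inl z) (1 : ℂ) :
        Fˣ ⊕ Fin 3 → ℂ) := by
      funext i
      rcases i with x | i
      · show (if x = z then s else 0) = _
        by_cases h : x = z
        · subst h; simp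
        · simp [h]
      · fin_cases i
        · show (0 : ℂ) = _
          simp
        · show (0 : ℂ) = _
          simp
        · show (0 : ℂ) = _
          simp
    rw [h2] at h1
    exact (Submodule.smul_mem_iff _ hs0).1 h1
  have hm : (Pi.single (inr 1) (1 : ℂ) : Fˣ ⊕ Fin 3 → ℂ) ∈ W := by
    have h1 := hR _ hv
    rw [Matrix.mulVec_single_one] at h1
    have h2 : (Rm e J s).col (inr 2) = s • (Pi.single (inr 1) (1 : ℂ) : Fˣ ⊕ Fin 3 → ℂ) := by
      funext i
      rcases i with x | i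
      · show (0 : ℂ) = _
        simp
      · fin_cases i
        · show (0 : ℂ) = _
          simp
        · show s = _
          simp
        · show (0 : ℂ) = _
          simp
    rw [h2] at h1
    exact (Submodule.smul_mem_iff _ hs0).1 h1
  have hp : (Pi.single (inr 0) (1 : ℂ) : Fˣ ⊕ Fin 3 → ℂ) ∈ W := by
    have h1 := hRH _ hv
    rw [Matrix.mulVec_single_one] at h1
    have h2 : ((Rm e J s)ᴴ).col (inr 2) = (-s) • (Pi.single (inr 0) (1 : ℂ) : Fˣ ⊕ Fin 3 → ℂ) := by
      funext i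
      rw [Matrix.col_apply, Matrix.conjTranspose_apply]
      rcases i with x | i
      · show (starRingEnd ℂ) (0 : ℂ) = _
        simp
      · fin_cases i
        · show (starRingEnd ℂ) (-s) = _
          simp [hsr]
        · show (starRingEnd ℂ) (0 : ℂ) = _
          simp
        · show (starRingEnd ℂ) (0 : ℂ) = _
          simp
    rw [h2] at h1
    exact (Submodule.smul_mem_iff _ (neg_ne_zero.2 hs0)).1 h1
  have hone : (Pi.single (inl 1) (1 : ℂ) : Fˣ ⊕ Fin 3 → ℂ) ∈ W := by
    have h1 := hR _ hm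
    rw [Matrix.mulVec_single_one] at h1
    have h2 : (Rm e J s).col (inr 1) = (Pi.single (inl 1) (1 : ℂ) : Fˣ ⊕ Fin 3 → ℂ) +
        ((Pi.single (inr 0) (1 : ℂ) : Fˣ ⊕ Fin 3 → ℂ) +
        ∑ x ∈ univ.filter (fun x : Fˣ => x ≠ 1), (Pi.single (inl x) (1 : ℂ) : Fˣ ⊕ Fin 3 → ℂ)) := by
      funext i
      rw [Pi.add_apply, Pi.add_apply, Finset.sum_apply]
      rcases i with x | i
      · show (1 : ℂ) = _
        by_cases c : x = 1
        · subst c
          rw [Finset.sum_eq_zero]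
          · simp
          · intro y hy
            rw [mem_filter] at hy
            simp [hy.2.symm]
        · rw [Finset.sum_eq_single x]
          · simp [c]
          · intro y _ hy
            simp [hy.symm]
          · intro h0
            exfalso; apply h0; simp [c]
      · rw [Finset.sum_eq_zero (fun y _ => by simp)]
        fin_cases i
        · show (1 : ℂ) = _
          simp
        · show (0 : ℂ) = _
          simp
        · show (0 : ℂ) = _
          simp
    rw [h2] at h1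
    refine (Submodule.add_mem_iff_left W ?_).1 h1
    refine Submodule.add_mem _ hp (Submodule.sum_mem _ fun x hx => ?_)
    rw [mem_filter] at hx
    apply hpt
    intro h0
    apply hx.2
    exact Units.ext (CharTwo.add_eq_zero.1 h0).symm
  rw [eq_top_iff]
  intro x _
  have hx : x = ∑ i, x i • (Pi.single i (1 : ℂ) : Fˣ ⊕ Fin 3 → ℂ) := by
    funext j
    rw [Finset.sum_apply, Finset.sum_eq_single j]
    · simp
    · intro i _ hi
      simp [hi.symm]
    · simp
  rw [hx]
  refine Submodule.sum_mem _ fun i _ => Submodule.smul_mem _ _ ?_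
  rcases i with z | i
  · by_cases c : z = 1
    · rw [c]; exact hone
    · apply hpt
      intro h0
      apply c
      exact Units.ext (CharTwo.add_eq_zero.1 h0).symm
  · fin_cases i
    · exact hp
    · exact hm
    · exact hv

theorem pj_iter (φ φ' : F ≃+* F) (m : ℕ) (hm : ∀ x, φ' x = φ^[m] x) : pj φ' = (pj φ)^[m] := by
  have key : ∀ (m : ℕ) (z : {z : Fˣ // 1 + (z : F) ≠ 0}), ∃ w : {z : Fˣ // 1 + (z : F) ≠ 0},
      (pj φ)^[m] (inl z) = inl w ∧ (w.1 : F) = φ^[m] z.1 := by
    intro m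
    induction m with
    | zero => intro z; exact ⟨z, rfl, rfl⟩
    | succ m ih =>
      intro z
      obtain ⟨w, hw1, hw2⟩ := ih z
      rw [Function.iterate_succ_apply', hw1]
      refine ⟨⟨uu φ w.1, ?_⟩, rfl, ?_⟩
      · rw [coe_uu]
        intro h0
        apply w.2
        apply φ.injective
        rw [map_add, map_one, h0, map_zero]
      · show φ w.1 = _
        rw [hw2, Function.iterate_succ_apply']
  have key2 : ∀ (m : ℕ) (i : Fin 2), (pj φ)^[m] (inr i) = (inr i : Idx F) := by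
    intro m i
    induction m with
    | zero => rfl
    | succ m ih => rw [Function.iterate_succ_apply', ih]; rfl
  funext j
  rcases j with z | i
  · obtain ⟨w, hw1, hw2⟩ := key m z
    rw [hw1]
    show inl _ = inl w
    congr 1
    apply Subtype.ext
    apply Units.ext
    rw [hw2, ← hm]
    rfl
  · rw [key2]; rfl

/-- **Main theorem**: independence of the automorphism. -/
theorem main (h : Bes e J) (h1 : e 1 = -1) (φ φ' : F ≃+* F)
    (hφ : ∀ x, e (φ x) = e x) (hφ' : ∀ x, e (φ' x) = e x)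
    (hJ : ∀ x, J (φ x) = J x) (hJ' : ∀ x, J (φ' x) = J x)
    (m m' : ℕ) (hm : ∀ x, φ' x = φ^[m] x) (hm' : ∀ x, φ x = φ'^[m'] x) :
    ∑ x : Fˣ, e x * rho e J (x * φ x) = ∑ x : Fˣ, e x * rho e J (x * φ' x) := by
  obtain ⟨s, hs⟩ : ∃ s : ℂ, s = ((Real.sqrt (Fintype.card F) : ℝ) : ℂ) := ⟨_, rfl⟩
  have hss : s * s = Fintype.card F := by
    rw [hs, ← Complex.ofReal_mul, Real.mul_self_sqrt (Nat.cast_nonneg _)]
    simp
  have hsr : (starRingEnd ℂ) s = s := by rw [hs, Complex.conj_ofReal]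
  rw [← trace_R s φ hφ, ← trace_R s φ' hφ']
  have hPv : ∀ ψ : F ≃+* F, Pm (tau ψ) *ᵥ (Pi.single (inr 2) (1 : ℂ) : Fˣ ⊕ Fin 3 → ℂ) =
      Pi.single (inr 2) 1 := by
    intro ψ
    rw [Matrix.mulVec_single_one]
    funext i
    show (if i = tau ψ (inr 2) then (1 : ℂ) else 0) = _
    have : tau ψ (inr 2) = inr 2 := rfl
    rw [this, Pi.single_apply]
  have hRR := RRH_comm h h1 s hss hsr
  refine trace_mul_eq (KK e J s) (cc e) ?_ ?_ ?_ (Rm e J s) ?_
    (Pi.single (inr 2) 1) (cyclic s hss hsr) _ _ (pj φ) (pj φ')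
    (Pm_KK s φ hφ hJ) (Pm_KK s φ' hφ' hJ') (hPv φ) (hPv φ') ?_
  · rintro (z | i)
    · simp only [cc]
      split_ifs
      · exact one_ne_zero
      · exact Complex.I_ne_zero
    · fin_cases i
      · exact one_ne_zero
      · exact Complex.I_ne_zero
  · rintro (z | i)
    · simp only [cc, KK]
      rw [Matrix.IsHermitian, Matrix.conjTranspose_smul, Km_conjTranspose h h1 s hsr, smul_smul]
      congr 1
      rcases e_pm e (z.1 : F) with h2 | h2
      · have h3 : ¬ ((1 : ℂ) = -1) := by norm_num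
        rw [h2]
        simp only [h3, if_false]
        show (starRingEnd ℂ) Complex.I * -1 = _
        rw [Complex.conj_I]; ring
      · simp [h2]
    · fin_cases i
      · show ((1 : ℂ) • (Rm e J s + (Rm e J s)ᴴ)).IsHermitian
        rw [one_smul, Matrix.IsHermitian, Matrix.conjTranspose_add,
          Matrix.conjTranspose_conjTranspose, add_comm]
      · show (Complex.I • (Rm e J s - (Rm e J s)ᴴ)).IsHermitian
        rw [Matrix.IsHermitian, Matrix.conjTranspose_smul, Matrix.conjTranspose_sub,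
          Matrix.conjTranspose_conjTranspose]
        show (starRingEnd ℂ) Complex.I • _ = _
        rw [Complex.conj_I, neg_smul, ← smul_neg, neg_sub]
  · have g1 : ∀ z : {z : Fˣ // 1 + (z : F) ≠ 0}, ∀ i : Fin 2,
        KK e J s (inl z) * KK e J s (inr i) = KK e J s (inr i) * KK e J s (inl z) := by
      intro z i
      have c1 := KR_comm h h1 s hss z.1 z.2
      have c2 := KRH_comm h h1 s hss hsr z.1 z.2
      fin_cases i
      · show Km e J s z.1 * (Rm e J s + (Rm e J s)ᴴ) = (Rm e J s + (Rm e J s)ᴴ) * Km e J s z.1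
        rw [Matrix.mul_add, Matrix.add_mul, c1, c2]
      · show Km e J s z.1 * (Rm e J s - (Rm e J s)ᴴ) = (Rm e J s - (Rm e J s)ᴴ) * Km e J s z.1
        rw [Matrix.mul_sub, Matrix.sub_mul, c1, c2]
    rintro (z | i) (z' | i')
    · exact KK_comm h h1 s hss z.1 z'.1 z.2 z'.2
    · exact g1 z i'
    · exact (g1 z' i).symm
    · fin_cases i <;> fin_cases i'
      · rfl
      · show (Rm e J s + (Rm e J s)ᴴ) * (Rm e J s - (Rm e J s)ᴴ) =
          (Rm e J s - (Rm e J s)ᴴ) * (Rm e J s + (Rm e J s)ᴴ)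
        rw [Matrix.add_mul, Matrix.mul_sub, Matrix.mul_sub, Matrix.sub_mul, Matrix.mul_add,
          Matrix.mul_add, hRR]
        abel
      · show (Rm e J s - (Rm e J s)ᴴ) * (Rm e J s + (Rm e J s)ᴴ) =
          (Rm e J s + (Rm e J s)ᴴ) * (Rm e J s - (Rm e J s)ᴴ)
        rw [Matrix.add_mul, Matrix.mul_sub, Matrix.mul_sub, Matrix.sub_mul, Matrix.mul_add,
          Matrix.mul_add, hRR]
        abel
      · rfl
  · rintro (z | i)
    · exact KR_comm h h1 s hss z.1 z.2
    · fin_cases i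
      · show (Rm e J s + (Rm e J s)ᴴ) * Rm e J s = Rm e J s * (Rm e J s + (Rm e J s)ᴴ)
        rw [Matrix.add_mul, Matrix.mul_add, hRR]
      · show (Rm e J s - (Rm e J s)ᴴ) * Rm e J s = Rm e J s * (Rm e J s - (Rm e J s)ᴴ)
        rw [Matrix.sub_mul, Matrix.mul_sub, hRR]
  · have g2 : ∀ (p : Idx F → Idx F) (m : ℕ) (f : Idx F → ℂ), f ∘ p = f → f ∘ p^[m] = f := by
      intro p m f hf
      induction m with
      | zero => rfl
      | succ m ih =>
        rw [Function.iterate_succ, ← Function.comp_assoc, ih, hf]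
    intro f
    constructor
    · intro hf
      rw [pj_iter φ φ' m hm]
      exact g2 _ _ _ hf
    · intro hf
      rw [pj_iter φ' φ m' hm']
      exact g2 _ _ _ hf

end Pool.Agent.K3h39.KR
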